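import Pool.Agent.AOR.Defs

set_option autoImplicit false

namespace Pool.Agent.AOR

theorem card_codes (U j : ℕ) :
    (codes U j).card ≤ (2 * U + 1) ^ (2 * j) * 2 ^ (4 * (2 ^ j - 1)) := by
  induction j with
  | zero => simp [codes]
  | succ j ih =>
    have h1 : (codes U (j + 1)).card ≤ ((2 * U + 1) * ((2 * U + 1) * 2 ^ (4 * 2 ^ j))) * (codes U j).card := by
      refine le_trans (show (codes U (j + 1)).card ≤ _ from Finset.card_image_le) ?_
      rw [Finset.card_product, Finset.card_product, Finset.card_product, Finset.card_powerset, Finset.card_range,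
        Finset.card_range]
    refine h1.trans ((Nat.mul_le_mul_left _ ih).trans (le_of_eq ?_))
    have h2 : 1 ≤ 2 ^ j := Nat.one_le_two_pow
    have h3 : 4 * (2 ^ (j + 1) - 1) = 4 * 2 ^ j + 4 * (2 ^ j - 1) := by
      rw [pow_succ]
      omega
    have h4 : 2 * (j + 1) = 2 * j + 2 := by ring
    rw [h3, h4, pow_add, pow_add]
    ring

private theorem hd_len (k : ℕ) (hk : 1 ≤ k) : 2 * k ≤ 2 ^ len k ∧ 2 ^ len k < 4 * k := by
  unfold len
  refine ⟨Nat.le_pow_clog (by norm_num) _, ?_⟩
  have h1 : 1 < 2 * k := by omega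
  have h2 := Nat.pow_pred_clog_lt_self (b := 2) (by norm_num) h1
  have h3 : 0 < Nat.clog 2 (2 * k) := Nat.clog_pos (by norm_num) h1
  obtain ⟨l, hl⟩ := Nat.exists_eq_succ_of_ne_zero h3.ne'
  rw [hl, Nat.pred_succ] at h2
  rw [hl, pow_succ]
  omega

private theorem hd_sq : ∀ l : ℕ, 4 * l ^ 2 ≤ 5 * 2 ^ l
  | 0 => by norm_num
  | 1 => by norm_num
  | 2 => by norm_num
  | 3 => by norm_num
  | l + 4 => by
    induction l with
    | zero => norm_num
    | succ l ih =>
      have h1 : 4 * (l + 1 + 4) ^ 2 ≤ 2 * (4 * (l + 4) ^ 2) := by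
        nlinarith [Nat.zero_le l, Nat.zero_le (l * l)]
      have h2 : 5 * 2 ^ (l + 1 + 4) = 2 * (5 * 2 ^ (l + 4)) := by ring
      rw [h2]
      omega

theorem card_codes_len (k : ℕ) : (codes (k ^ 2) (len k)).card ≤ 2 ^ (36 * k) := by
  rcases Nat.eq_zero_or_pos k with rfl | hk
  · simp [len, codes]
  · obtain ⟨h1, h2⟩ := hd_len k hk
    refine (card_codes _ _).trans ?_
    have h3 : 2 * k ^ 2 + 1 ≤ 2 ^ (2 * len k) := by
      rw [mul_comm 2 (len k), pow_mul]
      nlinarith
    have h4 : (2 * k ^ 2 + 1) ^ (2 * len k) ≤ 2 ^ (4 * len k ^ 2) := by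
      refine (Nat.pow_le_pow_left h3 _).trans (le_of_eq ?_)
      rw [← pow_mul]
      congr 1
      ring
    have h5 := hd_sq (len k)
    refine (Nat.mul_le_mul_right _ h4).trans ?_
    rw [← pow_add]
    refine Nat.pow_le_pow_right (by norm_num) ?_
    omega

theorem card_family (n k : ℕ) : (family n k).card ≤ (2 * n + 1) ^ 2 * 2 ^ (36 * k) := by
  refine le_trans (show (family n k).card ≤ _ from Finset.card_image_le) ?_
  rw [Finset.card_product, Finset.card_product, Finset.card_range, ← mul_assoc, ← pow_two]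
  exact Nat.mul_le_mul_left _ (card_codes_len k)

theorem ncol_le (k : ℕ) : ncol k ≤ 16 * k + 4 := by
  unfold ncol
  rcases Nat.eq_zero_or_pos k with rfl | hk
  · simp [len]
  · have h := (hd_len k hk).2
    omega

end Pool.Agent.AOR
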