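import Pool.Agent.SPD.DSp

set_option autoImplicit false

/-! Dimension of the space of polynomials of degree at most `k` in `c` variables: at most
`2 ^ (c + k)`, by counting exponent vectors. -/

namespace Pool.Agent.AOR

open Pool.Agent.SPD

private theorem geom_le (c m : ℕ) : ∑ j ∈ Finset.range m, 2 ^ (c + j) ≤ 2 ^ (c + m) := by
  induction m with
  | zero => simp
  | succ m ih =>
    rw [Finset.sum_range_succ, ← Nat.add_assoc, pow_succ]
    omega

private theorem exps (c : ℕ) : ∀ k : ℕ, ∃ T : Finset (Fin c → ℕ),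
    (∀ f : Fin c → ℕ, ∑ i, f i ≤ k → f ∈ T) ∧ T.card ≤ 2 ^ (c + k) := by
  classical
  induction c with
  | zero =>
    intro k
    refine ⟨{default}, fun f _ => ?_, ?_⟩
    · rw [Finset.mem_singleton]
      exact Subsingleton.elim _ _
    · rw [Finset.card_singleton]
      exact Nat.one_le_two_pow
  | succ c ih =>
    intro k
    choose T hT hc using ih
    refine ⟨(Finset.range (k + 1)).biUnion
      fun j => (T (k - j)).image (fun f => (Fin.cons j f : Fin (c + 1) → ℕ)), fun f hf => ?_, ?_⟩
    · rw [Fin.sum_univ_succ] at hf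
      rw [Finset.mem_biUnion]
      refine ⟨f 0, Finset.mem_range.2 (by omega), ?_⟩
      rw [Finset.mem_image]
      refine ⟨Fin.tail f, hT _ _ ?_, Fin.cons_self_tail f⟩
      change ∑ i : Fin c, f i.succ ≤ k - f 0
      omega
    · refine Finset.card_biUnion_le.trans ?_
      have h1 : ∑ j ∈ Finset.range (k + 1),
          ((T (k - j)).image (fun f => (Fin.cons j f : Fin (c + 1) → ℕ))).card
          ≤ ∑ j ∈ Finset.range (k + 1), 2 ^ (c + (k - j)) :=
        Finset.sum_le_sum fun j _ => Finset.card_image_le.trans (hc (k - j))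
      refine h1.trans ?_
      have h2 := Finset.sum_range_reflect (fun j => 2 ^ (c + j)) (k + 1)
      have h3 : ∑ j ∈ Finset.range (k + 1), 2 ^ (c + (k - j))
          = ∑ j ∈ Finset.range (k + 1), 2 ^ (c + (k + 1 - 1 - j)) := rfl
      rw [h3, h2]
      refine (geom_le c (k + 1)).trans_eq ?_
      rw [Nat.add_assoc, Nat.add_comm 1 k]

theorem finrank_deg {K : Type*} [Field K] (c k : ℕ) :
    Module.finrank K (MvPolynomial.restrictTotalDegree (Fin c) K k) ≤ 2 ^ (c + k) := by
  classical
  obtain ⟨T, hT, hc⟩ := exps c k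
  have h1 : Module.finrank K (MvPolynomial.restrictTotalDegree (Fin c) K k)
      = Nat.card {n : Fin c →₀ ℕ | (n.sum fun _ e => e) ≤ k} :=
    Module.finrank_eq_nat_card_basis (MvPolynomial.basisRestrictSupport K _)
  rw [h1]
  have h2 : Nat.card {n : Fin c →₀ ℕ | (n.sum fun _ e => e) ≤ k} ≤ Nat.card T := by
    refine Nat.card_le_card_of_injective
      (fun n => (⟨fun i => n.1 i, hT _ ?_⟩ : T)) ?_
    · have h3 : (n.1.sum fun _ e => e) ≤ k := n.2
      rw [Finsupp.sum_fintype _ _ (fun _ => rfl)] at h3
      exact h3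
    · intro a b hab
      refine Subtype.ext (DFunLike.ext _ _ fun i => ?_)
      exact congrFun (congrArg Subtype.val hab) i
  rw [Nat.card_eq_fintype_card (α := T), Fintype.card_coe] at h2
  exact h2.trans hc

theorem finrank_derivSpace_deg {K : Type*} [Field K] (c k : ℕ) (g : MvPolynomial (Fin c) K)
    (hg : g.totalDegree ≤ k) : Module.finrank K (derivSpace g) ≤ 2 ^ (c + k) := by
  have h : derivSpace g ≤ MvPolynomial.restrictTotalDegree (Fin c) K k := by
    refine derivSpace_le g _ ?_ ?_
    · rw [MvPolynomial.mem_restrictTotalDegree]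
      exact hg
    · intro p hp i
      rw [MvPolynomial.mem_restrictTotalDegree] at hp ⊢
      exact le_trans (totalDegree_pderiv_le i p) hp
  exact (Submodule.finrank_mono h).trans (finrank_deg c k)

end Pool.Agent.AOR
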