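import Pool.Agent.AOR.HNe
import Pool.Agent.AOR.DegSp

set_option autoImplicit false

namespace Pool.Agent.AOR

open Pool.Agent.SPD (hitPt)

private theorem hom_coeff {K : Type*} [Field K] {c : ℕ} (y : Fin c → K) (k : ℕ) (g : MvPolynomial (Fin c) K) :
    (MvPolynomial.aeval (fun j => Polynomial.C (y j) * Polynomial.X) g : Polynomial K).coeff k =
      MvPolynomial.eval y (MvPolynomial.homogeneousComponent k g) := by
  classical
  induction g using MvPolynomial.induction_on' with
  | add p q hp hq =>
    rw [map_add, Polynomial.coeff_add, hp, hq, map_add, map_add]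
  | monomial d a =>
    rw [MvPolynomial.aeval_monomial, Polynomial.algebraMap_eq]
    have h1 : (d.prod fun i e => (Polynomial.C (y i) * Polynomial.X : Polynomial K) ^ e) =
        Polynomial.C (d.prod fun i e => y i ^ e) * Polynomial.X ^ d.degree := by
      rw [Finsupp.prod, Finsupp.prod, map_prod, Finsupp.degree_apply, ← Finset.prod_pow_eq_pow_sum, ← Finset.prod_mul_distrib]
      refine Finset.prod_congr rfl fun i _ => ?_
      rw [mul_pow, map_pow]
    rw [h1, ← mul_assoc, ← map_mul, Polynomial.coeff_C_mul, Polynomial.coeff_X_pow]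
    have h2 : MvPolynomial.homogeneousComponent k (MvPolynomial.monomial d a) =
        if k = d.degree then MvPolynomial.monomial d a else 0 :=
      MvPolynomial.homogeneousComponent_of_mem (MvPolynomial.isHomogeneous_monomial a rfl)
    rw [h2]
    split_ifs with h3
    · rw [mul_one, MvPolynomial.eval_monomial]
    · rw [mul_zero, map_zero]

/- PLAN.  For fixed `y` the polynomial `q = ∑_m C (eval y (homogeneousComponent m g)) X^m` in one
variable (`m ≤ g.totalDegree`) satisfies `q.eval v = eval (v • y) g`
(`MvPolynomial.sum_homogeneousComponent`, homogeneity: `MvPolynomial.IsHomogeneous.eval₂` or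
direct), it has degree at most `N` and is not `0`. -/
theorem exists_v {K : Type*} [Field K] [CharZero K] {c N : ℕ} (g : MvPolynomial (Fin c) K)
    (hg : g.totalDegree ≤ N) (k : ℕ) (y : Fin c → K)
    (hy : MvPolynomial.eval y (MvPolynomial.homogeneousComponent k g) ≠ 0) :
    ∃ v : ℕ, v ≤ N ∧ MvPolynomial.eval (fun j => (v : K) * y j) g ≠ 0 := by
  classical
  by_contra hcon
  push Not at hcon
  set q : Polynomial K := MvPolynomial.aeval (fun j => Polynomial.C (y j) * Polynomial.X) g with hq
  have hdeg : q.natDegree ≤ N := by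
    have h := MvPolynomial.aeval_natDegree_le g hg (fun j => Polynomial.C (y j) * Polynomial.X) (n := 1) (fun i => by
      refine (Polynomial.natDegree_C_mul_le _ _).trans ?_
      rw [Polynomial.natDegree_X])
    rw [mul_one] at h
    exact h
  have heval : ∀ v : K, q.eval v = MvPolynomial.eval (fun j => v * y j) g := by
    intro v
    rw [hq, ← Polynomial.coe_evalRingHom, MvPolynomial.aeval_def, MvPolynomial.hom_eval₂]
    have h1 : (Polynomial.evalRingHom v).comp (algebraMap K (Polynomial K)) = RingHom.id K := by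
      ext x
      simp
    rw [h1, MvPolynomial.eval₂_id]
    congr 1
    refine congrArg MvPolynomial.eval (funext fun j => ?_)
    rw [Polynomial.coe_evalRingHom, Polynomial.eval_mul, Polynomial.eval_C, Polynomial.eval_X, mul_comm]
  have hz : q = 0 := by
    refine Polynomial.eq_zero_of_natDegree_lt_card_of_eval_eq_zero' q
      ((Finset.range (N + 1)).image (fun v : ℕ => (v : K))) ?_ ?_
    · intro x hx
      obtain ⟨v, hv, rfl⟩ := Finset.mem_image.1 hx
      rw [heval]
      exact hcon v (by have := Finset.mem_range.1 hv; omega)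
    · rw [Finset.card_image_of_injective _ Nat.cast_injective, Finset.card_range]
      omega
  apply hy
  rw [← hom_coeff, ← hq, hz, Polynomial.coeff_zero]

/- PLAN.  `g = Rpoly a h z` has `totalDegree ≤ n`; its homogeneous component `g'` of degree
`E.card` has the coefficient `coeff_Rpoly ≠ 0` at the square-free monomial of `E`
(`MvPolynomial.coeff_homogeneousComponent`), so `g' ≠ 0`, and
`finrank (derivSpace g') ≤ 2^(ncol k + E.card) ≤ 2^(ncol k + k)` (`finrank_derivSpace_deg`).  By
`SPD.hit_main` with `m = 1`, `d = E.card`, `s = 2^(ncol k + k)` there is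
`r ≤ E.card * M3 k ≤ k * M3 k` with `eval (hitPt (M3 k) (j + 1) r) g' ≠ 0`; then `exists_v`,
`eval_Rpoly`. -/
theorem exists_rv {K : Type*} [Field K] [CharZero K] {n k : ℕ} (a : Finset (Fin n) → K)
    (h : Fin n → Fin (ncol k)) (z : Fin n → K) (E : Finset (Fin (ncol k))) (hE : E.card ≤ k)
    (hne : MvPolynomial.eval z (Hpoly a h E) ≠ 0) :
    ∃ r ≤ k * M3 k, ∃ v ≤ n,
      mlEval a (fun i => z i * ((v : K) * ((hitPt (M3 k) ((h i : ℕ) + 1) r : ℕ) : K))) ≠ 0 := by
  classical
  have hdeg : (Rpoly a h z).totalDegree ≤ n := by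
    unfold Rpoly
    refine MvPolynomial.totalDegree_finsetSum_le ?_
    intro A _
    refine (MvPolynomial.totalDegree_mul _ _).trans ?_
    rw [MvPolynomial.totalDegree_C, zero_add]
    refine (MvPolynomial.totalDegree_finsetProd _ _).trans ?_
    refine (Finset.sum_le_sum fun i _ => (MvPolynomial.totalDegree_X (R := K) (h i)).le).trans ?_
    rw [Finset.sum_const, smul_eq_mul, mul_one]
    exact (Finset.card_le_univ A).trans (Fintype.card_fin n).le
  obtain ⟨g', hg'⟩ : ∃ g', g' = MvPolynomial.homogeneousComponent E.card (Rpoly a h z) := ⟨_, rfl⟩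
  have hg0 : g' ≠ 0 := by
    intro h0
    apply hne
    rw [← coeff_Rpoly]
    have h1 : MvPolynomial.coeff (∑ j ∈ E, Finsupp.single j 1) g' =
        MvPolynomial.coeff (∑ j ∈ E, Finsupp.single j 1) (Rpoly a h z) := by
      rw [hg', MvPolynomial.coeff_homogeneousComponent, if_pos]
      rw [map_sum]
      simp only [Finsupp.degree_single]
      rw [Finset.sum_const, smul_eq_mul, mul_one]
    rw [← h1, h0, MvPolynomial.coeff_zero]
  have hgd : g'.totalDegree ≤ E.card := by
    rw [hg']
    exact (MvPolynomial.homogeneousComponent_isHomogeneous _ _).totalDegree_le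
  have hfr : Module.finrank K (SPD.derivSpace g') ≤ 2 ^ (ncol k + k) :=
    (finrank_derivSpace_deg (ncol k) E.card g' hgd).trans
      (Nat.pow_le_pow_right (by norm_num) (by omega))
  obtain ⟨r, hr, hrne⟩ := SPD.hit_main (K := K) (ncol k) E.card (2 ^ (ncol k + k)) 1 (fun _ => g')
    (fun _ => hg0) (fun _ => hfr) g' (by simp) hgd
  have hr2 : MvPolynomial.eval (fun i : Fin (ncol k) => ((hitPt (M3 k) ((i : ℕ) + 1) r : ℕ) : K))
      (MvPolynomial.homogeneousComponent E.card (Rpoly a h z)) ≠ 0 := by
    rw [← hg']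
    exact hrne
  obtain ⟨v, hv, hvne⟩ := exists_v (Rpoly a h z) hdeg E.card _ hr2
  refine ⟨r, hr.trans (Nat.mul_le_mul_right _ hE), v, hv, ?_⟩
  rw [eval_Rpoly] at hvne
  exact hvne

end Pool.Agent.AOR
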