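import Pool.Agent.AOR.HashB

set_option autoImplicit false

namespace Pool.Agent.AOR

theorem length_of_mem_codes {U j : ℕ} {code : List (ℕ × ℕ × Finset ℕ)}
    (h : code ∈ codes U j) : code.length = j := by
  induction j generalizing code with
  | zero =>
    have h1 : code = [] := Finset.mem_singleton.1 h
    rw [h1]
    rfl
  | succ j ih =>
    obtain ⟨q, hq, rfl⟩ := Finset.mem_image.1 h
    have h2 := (Finset.mem_product.1 hq).2
    rw [List.length_cons, ih h2]

private lemma hashC_bucket_lt (p a m x : ℕ) (hm : 0 < m) : bucket p a m x < m :=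
  Nat.mod_lt _ hm

private lemma hashC_col_cons (p a : ℕ) (B : Finset ℕ) (rest : List (ℕ × ℕ × Finset ℕ)) (x : ℕ) :
    col ((p, a, B) :: rest) x =
      if bucket p a (4 * 2 ^ rest.length) x ∈ B then col rest x
      else bucket p a (4 * 2 ^ rest.length) x + 4 * (2 ^ rest.length - 1) := rfl

theorem col_lt (code : List (ℕ × ℕ × Finset ℕ)) (x : ℕ) (h : code ≠ []) :
    col code x < 4 * (2 ^ code.length - 1) := by
  induction code with
  | nil => exact absurd rfl h
  | cons c rest ih =>
    obtain ⟨p, a, B⟩ := c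
    have hpos : 0 < 2 ^ rest.length := by positivity
    have hb := hashC_bucket_lt p a (4 * 2 ^ rest.length) x (by omega)
    rw [List.length_cons, pow_succ, hashC_col_cons]
    split_ifs with h1
    · rcases eq_or_ne rest [] with h2 | h2
      · subst h2
        simp [col]
      · have h3 := ih h2
        omega
    · omega

theorem exists_code (U j : ℕ) (T : Finset ℕ) (hTU : ∀ x ∈ T, x < U) (hT : 2 * T.card ≤ 2 ^ j) :
    ∃ code ∈ codes U j, Set.InjOn (col code) (T : Set ℕ) := by
  induction j generalizing T with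
  | zero =>
    rw [pow_zero] at hT
    have h0 : T.card = 0 := by omega
    have h1 : T = ∅ := Finset.card_eq_zero.1 h0
    refine ⟨[], Finset.mem_singleton_self _, ?_⟩
    rw [h1, Finset.coe_empty]
    exact Set.injOn_empty _
  | succ j ih =>
    rw [pow_succ] at hT
    obtain ⟨p, hp, a, ha, hc⟩ := level_step U j T hTU (by omega)
    obtain ⟨rest, hrest, hinj⟩ := ih (T.filter (fun x => ∃ y ∈ T, y ≠ x ∧
        bucket p a (4 * 2 ^ j) x = bucket p a (4 * 2 ^ j) y))
      (fun x hx => hTU x (Finset.mem_filter.1 hx).1) hc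
    have hlen := length_of_mem_codes hrest
    have hpos : 0 < 2 ^ j := by positivity
    have key : ∀ x ∈ T, bucket p a (4 * 2 ^ j) x ∈ ((T.filter (fun x => ∃ y ∈ T, y ≠ x ∧
        bucket p a (4 * 2 ^ j) x = bucket p a (4 * 2 ^ j) y)).image
          (bucket p a (4 * 2 ^ j))) → x ∈ T.filter (fun x => ∃ y ∈ T, y ≠ x ∧
        bucket p a (4 * 2 ^ j) x = bucket p a (4 * 2 ^ j) y) := by
      intro x hx h
      obtain ⟨z, hz, hzx⟩ := Finset.mem_image.1 h
      rcases eq_or_ne z x with h1 | h1
      · rw [← h1]; exact hz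
      · exact Finset.mem_filter.2 ⟨hx, z, (Finset.mem_filter.1 hz).1, h1, hzx.symm⟩
    refine ⟨(p, a, (T.filter (fun x => ∃ y ∈ T, y ≠ x ∧
        bucket p a (4 * 2 ^ j) x = bucket p a (4 * 2 ^ j) y)).image
          (bucket p a (4 * 2 ^ j))) :: rest, ?_, ?_⟩
    · refine Finset.mem_image.2 ⟨((p, (a, _)), rest), ?_, rfl⟩
      refine Finset.mem_product.2 ⟨Finset.mem_product.2 ⟨?_, Finset.mem_product.2 ⟨?_, ?_⟩⟩, hrest⟩
      · exact Finset.mem_range.2 (by change p < 2 * U + 1; omega)
      · exact Finset.mem_range.2 (by change a < 2 * U + 1; omega)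
      · refine Finset.mem_powerset.2 (fun b hb => ?_)
        obtain ⟨z, _, rfl⟩ := Finset.mem_image.1 hb
        exact Finset.mem_range.2 (hashC_bucket_lt _ _ _ _ (by omega))
    · have hcross : ∀ x ∈ T.filter (fun x => ∃ y ∈ T, y ≠ x ∧
          bucket p a (4 * 2 ^ j) x = bucket p a (4 * 2 ^ j) y), ∀ y,
          col rest x ≠ bucket p a (4 * 2 ^ j) y + 4 * (2 ^ j - 1) := by
        intro x hx y h
        have hne : rest ≠ [] := by
          intro h0
          rw [h0, List.length_nil] at hlen
          rw [← hlen, pow_zero] at hc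
          have h1 : 0 < (T.filter (fun x => ∃ y ∈ T, y ≠ x ∧
            bucket p a (4 * 2 ^ 0) x = bucket p a (4 * 2 ^ 0) y)).card := by
            rw [← hlen] at hx
            exact Finset.card_pos.2 ⟨x, hx⟩
          rw [pow_zero] at h1
          omega
        have h2 := col_lt rest x hne
        rw [hlen] at h2
        omega
      intro x hx y hy hxy
      rw [hashC_col_cons, hashC_col_cons, hlen] at hxy
      split_ifs at hxy with h1 h2 h3
      · exact hinj (Finset.mem_coe.2 (key x hx h1)) (Finset.mem_coe.2 (key y hy h2)) hxy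
      · exact absurd hxy (hcross x (key x hx h1) y)
      · exact absurd hxy.symm (hcross y (key y hy h3) x)
      · by_contra hne
        apply h1
        have hb : bucket p a (4 * 2 ^ j) x = bucket p a (4 * 2 ^ j) y := by omega
        exact Finset.mem_image_of_mem _ (Finset.mem_filter.2 ⟨hx, y, hy, Ne.symm hne, hb⟩)

theorem family_separates (n k : ℕ) (T : Finset (Fin n)) (hT : T.card ≤ k) :
    ∃ h ∈ family n k, Set.InjOn h (T : Set (Fin n)) := by
  obtain ⟨p, hp, a, ha, hinj⟩ := level_zero n k T hT
  have hlt : ∀ x ∈ T.image (fun i : Fin n => bucket p a (k ^ 2) (i : ℕ)), x < k ^ 2 := by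
    intro x hx
    obtain ⟨i, hi, rfl⟩ := Finset.mem_image.1 hx
    have hk : 0 < k := lt_of_lt_of_le (Finset.card_pos.2 ⟨i, hi⟩) hT
    exact hashC_bucket_lt _ _ _ _ (by positivity)
  have hcard : 2 * (T.image (fun i : Fin n => bucket p a (k ^ 2) (i : ℕ))).card ≤
      2 ^ len k := by
    have h1 : (T.image (fun i : Fin n => bucket p a (k ^ 2) (i : ℕ))).card ≤ T.card :=
      Finset.card_image_le
    have h2 : 2 * k ≤ 2 ^ len k := Nat.le_pow_clog (by norm_num) _
    omega
  obtain ⟨code, hcode, hci⟩ := exists_code (k ^ 2) (len k) _ hlt hcard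
  have hcol : ∀ x, col code x < ncol k := by
    intro x
    rcases eq_or_ne code [] with h | h
    · rw [h]
      exact ncol_pos k
    · have h1 := col_lt code x h
      rw [length_of_mem_codes hcode] at h1
      unfold ncol
      omega
  refine ⟨hash n k p a code, ?_, ?_⟩
  · refine Finset.mem_image.2 ⟨(p, (a, code)), ?_, rfl⟩
    refine Finset.mem_product.2 ⟨Finset.mem_range.2 (by change p < 2 * n + 1; omega),
      Finset.mem_product.2 ⟨Finset.mem_range.2 (by change a < 2 * n + 1; omega), hcode⟩⟩
  · intro i hi j hj hij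
    have h1 : col code (bucket p a (k ^ 2) (i : ℕ)) % ncol k =
        col code (bucket p a (k ^ 2) (j : ℕ)) % ncol k := congrArg Fin.val hij
    rw [Nat.mod_eq_of_lt (hcol _), Nat.mod_eq_of_lt (hcol _)] at h1
    exact hinj hi hj (hci (Finset.mem_coe.2 (Finset.mem_image_of_mem _ hi))
      (Finset.mem_coe.2 (Finset.mem_image_of_mem _ hj)) h1)

end Pool.Agent.AOR
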