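import Pool.Agent.AOR.HashD

set_option autoImplicit false

namespace Pool.Agent.AOR

/- PLAN.  `k = Nat.log 2 w`, `2^k ≤ w` (`w ≥ 1`), `k ≤ w`.  `ncol k ≤ 16 k + 4`,
`M3 k = ncol k * 4^(ncol k + k) ≤ (16 k + 4) * 4^(17 k + 4) ≤ 20 w * 2^8 * w^34`;
`card points ≤ (n M1 + 1) (n M2 + 1) (k M3 + 1) (n + 1) (2n+1)^2 2^(36 k)`
(`Finset.card_image_le`, `Finset.card_product`); `n M1 + 1 ≤ 4 (n+1)^2 w^2` etc.  The constants in the
statement are generous. -/
theorem card_points (n w : ℕ) (hw : 1 ≤ w) :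
    (points n w).card ≤ 2 ^ 30 * (n + 1) ^ 7 * w ^ 80 := by
  have hk1 : 2 ^ Nat.log 2 w ≤ w := Nat.pow_log_le_self 2 (by omega)
  generalize hk : Nat.log 2 w = k at hk1
  have hk2 : k + 1 ≤ w := le_trans (Nat.succ_le_of_lt Nat.lt_two_pow_self) hk1
  have hnc : ncol k ≤ 16 * w := by
    have h1 := ncol_le k
    omega
  have h1n : 1 ≤ (n + 1) ^ 2 := Nat.one_le_pow _ _ (by omega)
  -- the first factor
  have h1 : n * M1 n w + 1 ≤ 4 * ((n + 1) ^ 2 * w ^ 2) := by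
    unfold M1
    have h2 : 1 ≤ w ^ 2 := Nat.one_le_pow _ _ hw
    nlinarith [Nat.zero_le (n * w ^ 2)]
  -- the second factor
  have h2 : n * M2 n w + 1 ≤ (n + 1) ^ 2 * w ^ 4 := by
    unfold M2
    have h2 : 1 ≤ w ^ 4 := Nat.one_le_pow _ _ hw
    nlinarith [Nat.zero_le (n * w ^ 4)]
  -- the third factor
  have hM3 : M3 k ≤ 2 ^ 12 * w ^ 35 := by
    unfold M3
    have e1 : (2 ^ (ncol k + k)) ^ 2 ≤ 2 ^ 8 * w ^ 34 := by
      have e2 : (2 ^ (ncol k + k)) ^ 2 ≤ 2 ^ (8 + k * 34) := by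
        rw [← pow_mul]
        refine Nat.pow_le_pow_right (by norm_num) ?_
        have h3 := ncol_le k
        omega
      refine le_trans e2 ?_
      rw [pow_add, pow_mul]
      exact Nat.mul_le_mul_left _ (Nat.pow_le_pow_left hk1 34)
    calc ncol k * (2 ^ (ncol k + k)) ^ 2 ≤ (16 * w) * (2 ^ 8 * w ^ 34) := Nat.mul_le_mul hnc e1
      _ = 2 ^ 12 * w ^ 35 := by ring
  have h3 : k * M3 k + 1 ≤ 2 ^ 12 * w ^ 36 := by
    have e1 : k * M3 k ≤ k * (2 ^ 12 * w ^ 35) := Nat.mul_le_mul_left _ hM3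
    have e2 : (k + 1) * (2 ^ 12 * w ^ 35) ≤ w * (2 ^ 12 * w ^ 35) := Nat.mul_le_mul_right _ hk2
    have e3 : 1 ≤ 2 ^ 12 * w ^ 35 := Nat.mul_pos (by norm_num) (Nat.pow_pos hw)
    have e4 : w * (2 ^ 12 * w ^ 35) = 2 ^ 12 * w ^ 36 := by ring
    rw [← e4]
    refine le_trans ?_ e2
    rw [Nat.add_mul, Nat.one_mul]
    exact Nat.add_le_add e1 e3
  -- the family
  have h4 : (family n k).card ≤ 4 * (n + 1) ^ 2 * w ^ 36 := by
    refine le_trans (card_family n k) ?_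
    refine Nat.mul_le_mul ?_ ?_
    · nlinarith [Nat.zero_le n]
    · rw [Nat.mul_comm 36 k, pow_mul]
      exact Nat.pow_le_pow_left hk1 36
  have h0 : (points n w).card ≤ (n * M1 n w + 1) * ((n * M2 n w + 1) * ((k * M3 k + 1) * ((n + 1) * (family n k).card))) := by
    unfold points
    rw [hk]
    refine le_trans Finset.card_image_le ?_
    rw [Finset.card_product, Finset.card_product, Finset.card_product, Finset.card_product, Finset.card_range,
      Finset.card_range, Finset.card_range, Finset.card_range]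
  refine le_trans h0 ?_
  calc (n * M1 n w + 1) * ((n * M2 n w + 1) * ((k * M3 k + 1) * ((n + 1) * (family n k).card)))
      ≤ (4 * ((n + 1) ^ 2 * w ^ 2)) * (((n + 1) ^ 2 * w ^ 4) * ((2 ^ 12 * w ^ 36) * ((n + 1) * (4 * (n + 1) ^ 2 * w ^ 36)))) :=
        Nat.mul_le_mul h1 (Nat.mul_le_mul h2 (Nat.mul_le_mul h3 (Nat.mul_le_mul_left _ h4)))
    _ = 2 ^ 16 * (n + 1) ^ 7 * w ^ 78 := by ring
    _ ≤ 2 ^ 30 * (n + 1) ^ 7 * w ^ 80 := by
        refine Nat.mul_le_mul (Nat.mul_le_mul_right _ (Nat.pow_le_pow_right (by norm_num) (by norm_num)))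
          (Nat.pow_le_pow_right hw (by norm_num))

end Pool.Agent.AOR
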