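import Pool.Agent.AOR.Defs

set_option autoImplicit false

namespace Pool.Agent.AOR

theorem mlEval_shift {R : Type*} [CommRing R] {n : ℕ} (a : Finset (Fin n) → R)
    (p x : Fin n → R) : mlEval a (fun i => p i + x i) = mlEval (shift a p) x := by
  unfold mlEval shift
  have h1 : ∀ A : Finset (Fin n), a A * ∏ i ∈ A, (p i + x i) =
      ∑ T, (if T ⊆ A then a A * ∏ i ∈ A \ T, p i else 0) * ∏ i ∈ T, x i := by
    intro A
    have h2 : ∏ i ∈ A, (p i + x i) = ∑ T ∈ A.powerset, (∏ i ∈ T, x i) * ∏ i ∈ A \ T, p i := by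
      rw [← Finset.prod_add]
      exact Finset.prod_congr rfl fun i _ => add_comm _ _
    have h3 : A.powerset = Finset.univ.filter fun T => T ⊆ A := by
      ext T
      simp
    rw [h2, h3, Finset.mul_sum, Finset.sum_filter]
    refine Finset.sum_congr rfl fun T _ => ?_
    by_cases hT : T ⊆ A
    · rw [if_pos hT, if_pos hT]
      ring
    · rw [if_neg hT, if_neg hT, zero_mul]
  rw [Finset.sum_congr rfl fun A _ => h1 A, Finset.sum_comm]
  exact Finset.sum_congr rfl fun T _ => (Finset.sum_mul _ _ _).symm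

theorem map_shift {R S : Type*} [CommRing R] [CommRing S] (φ : R →+* S) {n : ℕ}
    (a : Finset (Fin n) → R) (p : Fin n → R) (T : Finset (Fin n)) :
    φ (shift a p T) = shift (fun A => φ (a A)) (fun i => φ (p i)) T := by
  unfold shift
  rw [map_sum]
  refine Finset.sum_congr rfl fun A _ => ?_
  by_cases hT : T ⊆ A
  · rw [if_pos hT, if_pos hT, map_mul, map_prod]
  · rw [if_neg hT, if_neg hT, map_zero]

end Pool.Agent.AOR
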