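import Pool.Agent.AOR.Defs

set_option autoImplicit false

namespace Pool.Agent.AOR

open Pool.Agent.SPD

private theorem pd_prod_zero {K : Type*} [Field K] {n : ℕ} (A : Finset (Fin n)) (k : Fin n) (hk : k ∉ A) :
    MvPolynomial.pderiv k (∏ i ∈ A, (MvPolynomial.X i : MvPolynomial (Fin n) K)) = 0 := by
  classical
  induction A using Finset.induction_on with
  | empty => rw [Finset.prod_empty, Derivation.map_one_eq_zero]
  | insert j A hj ih =>
    rw [Finset.mem_insert, not_or] at hk
    rw [Finset.prod_insert hj, Derivation.leibniz, ih hk.2,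
      MvPolynomial.pderiv_X_of_ne (fun h => hk.1 h.symm), smul_zero, smul_zero, add_zero]

private theorem pd_prod {K : Type*} [Field K] {n : ℕ} (A : Finset (Fin n)) (k : Fin n) (hk : k ∈ A) :
    MvPolynomial.pderiv k (∏ i ∈ A, (MvPolynomial.X i : MvPolynomial (Fin n) K)) =
      ∏ i ∈ A.erase k, MvPolynomial.X i := by
  rw [← Finset.mul_prod_erase A _ hk, Derivation.leibniz, MvPolynomial.pderiv_X_self,
    pd_prod_zero _ _ (Finset.notMem_erase k A), smul_zero, zero_add, smul_eq_mul, mul_one]

/- PLAN.  The span of the monomials `∏_(i ∈ A) X i`, `A ⊆ T`, contains the polynomial and is closed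
under partial derivatives (`derivSpace_le`; `pderiv k (∏_(i ∈ A) X i)` is `0` if `k ∉ A` and
`∏_(i ∈ A.erase k) X i` if `k ∈ A`); it is spanned by `2 ^ T.card` elements
(`finrank_range_le_card` or `finrank_span_finset_le_card`). -/
theorem finrank_sub {K : Type*} [Field K] {n : ℕ} (T : Finset (Fin n))
    (c : Finset (Fin n) → K) :
    Module.finrank K (derivSpace (∑ A ∈ T.powerset,
      MvPolynomial.C (c A) * ∏ i ∈ A, (MvPolynomial.X i : MvPolynomial (Fin n) K))) ≤
      2 ^ T.card := by
  classical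
  set V : Submodule K (MvPolynomial (Fin n) K) := Submodule.span K
    ((T.powerset.image fun A => ∏ i ∈ A, (MvPolynomial.X i : MvPolynomial (Fin n) K) : Finset _) :
      Set (MvPolynomial (Fin n) K)) with hV
  have hmem : ∀ A ⊆ T, (∏ i ∈ A, (MvPolynomial.X i : MvPolynomial (Fin n) K)) ∈ V := fun A hA =>
    Submodule.subset_span (Finset.mem_coe.2 (Finset.mem_image_of_mem _ (Finset.mem_powerset.2 hA)))
  have hle : derivSpace (∑ A ∈ T.powerset,
      MvPolynomial.C (c A) * ∏ i ∈ A, (MvPolynomial.X i : MvPolynomial (Fin n) K)) ≤ V := by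
    refine derivSpace_le _ V ?_ ?_
    · refine Submodule.sum_mem _ fun A hA => ?_
      rw [← MvPolynomial.smul_eq_C_mul]
      exact V.smul_mem _ (hmem A (Finset.mem_powerset.1 hA))
    · intro g hg k
      refine Submodule.span_induction (p := fun g _ => MvPolynomial.pderiv k g ∈ V) ?_ ?_ ?_ ?_ hg
      · intro x hx
        obtain ⟨A, hA, rfl⟩ := Finset.mem_image.1 (Finset.mem_coe.1 hx)
        have hA' := Finset.mem_powerset.1 hA
        by_cases hk : k ∈ A
        · rw [pd_prod A k hk]
          exact hmem _ ((Finset.erase_subset k A).trans hA')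
        · rw [pd_prod_zero A k hk]
          exact V.zero_mem
      · rw [map_zero]
        exact V.zero_mem
      · intro x y _ _ hx hy
        rw [map_add]
        exact V.add_mem hx hy
      · intro r x _ hx
        rw [Derivation.map_smul]
        exact V.smul_mem _ hx
  have hfin : FiniteDimensional K V := FiniteDimensional.span_finset K _
  calc Module.finrank K (derivSpace (∑ A ∈ T.powerset,
        MvPolynomial.C (c A) * ∏ i ∈ A, (MvPolynomial.X i : MvPolynomial (Fin n) K)))
      ≤ Module.finrank K V := Submodule.finrank_mono hle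
    _ ≤ (T.powerset.image fun A => ∏ i ∈ A, (MvPolynomial.X i : MvPolynomial (Fin n) K)).card :=
        finrank_span_finset_le_card _
    _ ≤ T.powerset.card := Finset.card_image_le
    _ = 2 ^ T.card := Finset.card_powerset T

private theorem ind_apply {n : ℕ} (A : Finset (Fin n)) (j : Fin n) :
    (∑ i ∈ A, Finsupp.single i 1 : Fin n →₀ ℕ) j = if j ∈ A then 1 else 0 := by
  classical
  rw [Finsupp.finsetSum_apply]
  simp only [Finsupp.single_apply]
  rw [Finset.sum_ite_eq']

private theorem ind_inj {n : ℕ} {A B : Finset (Fin n)}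
    (h : (∑ i ∈ A, Finsupp.single i 1 : Fin n →₀ ℕ) = ∑ i ∈ B, Finsupp.single i 1) : A = B := by
  classical
  ext j
  have h1 := DFunLike.congr_fun h j
  rw [ind_apply, ind_apply] at h1
  by_cases hA : j ∈ A <;> by_cases hB : j ∈ B <;> simp_all

/- PLAN.  The polynomial `g = ∑_(A ⊆ T) C (lam A) ∏_(i ∈ T \ A) (-X i)` is
`∑_(A ⊆ T) C ((-1)^|A| lam (T \ A)) ∏_(i ∈ A) X i` (`A ↦ T \ A`), it is not `0` (coefficient of the
monomial of `T \ A0`), `finrank (derivSpace g) ≤ 2^|T| ≤ s` by `finrank_sub`, so
`MvPolynomial.aeval (gm n s) g ≠ 0` by `SPD.curve_ne_zero` (`gm` unfolds to the curve used there). -/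
theorem gm_li {K : Type*} [Field K] [CharZero K] {n : ℕ} (s : ℕ) (T : Finset (Fin n))
    (hT : 2 ^ T.card ≤ s) (lam : Finset (Fin n) → K) (A0 : Finset (Fin n)) (hA0 : A0 ⊆ T)
    (hlam : lam A0 ≠ 0) :
    ∑ A ∈ T.powerset, Polynomial.C (lam A) * ∏ i ∈ T \ A, (-(gm (K := K) n s i)) ≠ 0 := by
  classical
  set g : MvPolynomial (Fin n) K := ∑ A ∈ T.powerset,
    MvPolynomial.C ((-1) ^ A.card * lam (T \ A)) * ∏ i ∈ A, (MvPolynomial.X i : MvPolynomial (Fin n) K)
    with hg
  have hgs : Module.finrank K (derivSpace g) ≤ s :=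
    (finrank_sub T fun A => (-1) ^ A.card * lam (T \ A)).trans hT
  have hg0 : g ≠ 0 := by
    intro h0
    have h1 := congrArg (MvPolynomial.coeff (∑ i ∈ T \ A0, Finsupp.single i 1)) h0
    rw [hg, MvPolynomial.coeff_sum, MvPolynomial.coeff_zero,
      Finset.sum_eq_single_of_mem (T \ A0) (Finset.mem_powerset.2 Finset.sdiff_subset)] at h1
    · rw [MvPolynomial.coeff_C_mul, Finset.sdiff_sdiff_eq_self hA0] at h1
      have h2 : (∏ i ∈ T \ A0, (MvPolynomial.X i : MvPolynomial (Fin n) K)) =
          MvPolynomial.monomial (∑ i ∈ T \ A0, Finsupp.single i 1) 1 :=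
        (MvPolynomial.monomial_sum_one _ _).symm
      rw [h2, MvPolynomial.coeff_monomial, if_pos rfl, mul_one] at h1
      exact mul_ne_zero (pow_ne_zero _ (neg_ne_zero.2 one_ne_zero)) hlam h1
    · intro B _ hB
      have h2 : (∏ i ∈ B, (MvPolynomial.X i : MvPolynomial (Fin n) K)) =
          MvPolynomial.monomial (∑ i ∈ B, Finsupp.single i 1) 1 :=
        (MvPolynomial.monomial_sum_one _ _).symm
      rw [MvPolynomial.coeff_C_mul, h2, MvPolynomial.coeff_monomial, if_neg, mul_zero]
      intro h3
      exact hB (ind_inj h3)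
  have hne := curve_ne_zero n s g hg0 hgs
  have hev : MvPolynomial.aeval (fun i : Fin n => gm (K := K) n s i) g =
      ∑ A ∈ T.powerset, Polynomial.C (lam A) * ∏ i ∈ T \ A, (-(gm (K := K) n s i)) := by
    rw [hg, map_sum]
    refine Finset.sum_nbij' (fun A => T \ A) (fun A => T \ A) ?_ ?_ ?_ ?_ ?_
    · intro A _
      exact Finset.mem_powerset.2 Finset.sdiff_subset
    · intro A _
      exact Finset.mem_powerset.2 Finset.sdiff_subset
    · intro A hA
      exact Finset.sdiff_sdiff_eq_self (Finset.mem_powerset.1 hA)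
    · intro A hA
      exact Finset.sdiff_sdiff_eq_self (Finset.mem_powerset.1 hA)
    · intro A hA
      rw [map_mul, map_prod, MvPolynomial.aeval_C, Finset.sdiff_sdiff_eq_self (Finset.mem_powerset.1 hA),
        Finset.prod_neg, ← Polynomial.C_eq_algebraMap, map_mul, map_pow, map_neg, map_one]
      simp only [MvPolynomial.aeval_X]
      ring
  rw [← hev]
  exact hne

end Pool.Agent.AOR
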