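import Pool.Agent.AOR.MinCo
import Pool.Agent.AOR.SubDer
import Pool.Agent.AOR.ShEval

set_option autoImplicit false

namespace Pool.Agent.AOR

open Polynomial

/- PLAN (low support).  Work in `K[X]`: `a' A = C (a A)`, `p = gm n (2 * w)`.  By `exists_min` take a
minimal `T` with `shift a' p T ≠ 0`; suppose `w < 2 ^ T.card`.  `w ≥ 1` (a row of `a ≠ 0` is not
`0`, take `S = ∅` or any `S`: `Flat`).  `N = Nat.log 2 w + 1`: `w < 2 ^ N ≤ 2 * w`
(`Nat.lt_pow_succ_log_self`, `Nat.pow_log_le_self`), so `N ≤ T.card`; choose `T0 ⊆ T` with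
`T0.card = N` (`Finset.exists_subset_card_eq`), `T1 = T \ T0`.  The `2 ^ N > w` rows
`row a T0 A`, `A ⊆ T0`, are linearly dependent: there is `lam`, `lam A0 ≠ 0` for some `A0 ⊆ T0`,
`∑_(A ⊆ T0) lam A * a (A ∪ B) = 0` for all `B` disjoint from `T0`.  By `min_coeff` for
`A ∪ T1` (`A ⊆ T0`): `∑_(B ⊆ Tᶜ) C (a (A ∪ T1 ∪ B)) ∏_B p = shift a' p T * ∏_(i ∈ T0 \ A) (-p i)`.
Multiply by `C (lam A)` and sum over `A ⊆ T0`: the left side is `0`, the right side is
`shift a' p T * (∑_(A ⊆ T0) C (lam A) ∏_(T0 \ A) (-p)) ≠ 0` by `gm_li`. -/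
theorem conc {K : Type*} [Field K] [CharZero K] {n w : ℕ} (a : Finset (Fin n) → K) (ha : a ≠ 0)
    (hw : Flat w a) :
    ∃ T, 2 ^ T.card ≤ w ∧ shift (fun A => C (a A)) (gm n (2 * w)) T ≠ 0 := by
  have ha' : (fun A => C (a A) : Finset (Fin n) → K[X]) ≠ 0 := by
    intro h
    apply ha
    funext A
    have h1 := congrFun h A
    exact C_eq_zero.1 h1
  obtain ⟨T, hT, hmin⟩ := exists_min (fun A => C (a A) : Finset (Fin n) → K[X]) (gm n (2 * w)) ha'
  refine ⟨T, ?_, hT⟩
  by_contra hcon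
  have hlt : w < 2 ^ T.card := not_le.1 hcon
  have hw0 : w ≠ 0 := by
    intro h0
    have h1 := hw ∅
    rw [h0] at h1
    have h2 : Submodule.span K (Set.range (row a ∅)) = ⊥ := by
      apply Submodule.finrank_eq_zero.1
      exact Nat.le_zero.1 h1
    rw [Submodule.span_eq_bot] at h2
    apply ha
    have h3 := h2 _ ⟨∅, rfl⟩
    rw [← h3]
    funext B
    simp [row]
  obtain ⟨N, hN1, hN2, hN3⟩ : ∃ N, w < 2 ^ N ∧ 2 ^ N ≤ 2 * w ∧ N ≤ T.card := by
    refine ⟨Nat.log 2 w + 1, Nat.lt_pow_succ_log_self (by norm_num) w, ?_, ?_⟩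
    · rw [pow_succ, mul_comm]
      exact Nat.mul_le_mul_left 2 (Nat.pow_log_le_self 2 hw0)
    · have h1 := (Nat.pow_log_le_self 2 hw0).trans_lt hlt
      exact (Nat.pow_lt_pow_iff_right (by norm_num)).1 h1
  obtain ⟨T0, hT0, hT0c⟩ := Finset.exists_subset_card_eq hN3
  have hdep : ¬ LinearIndepOn K (row a T0) (T0.powerset : Set (Finset (Fin n))) := by
    intro hli
    have h1 := hw T0
    have h2 := finrank_span_eq_card hli
    have h3 : Submodule.span K (Set.range fun x : (T0.powerset : Set (Finset (Fin n))) => row a T0 x) ≤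
        Submodule.span K (Set.range (row a T0)) := by
      apply Submodule.span_mono
      rintro _ ⟨x, rfl⟩
      exact ⟨x, rfl⟩
    have h4 := Submodule.finrank_mono h3
    have h5 : Fintype.card (T0.powerset : Set (Finset (Fin n))) = 2 ^ N := by
      rw [← hT0c, ← Finset.card_powerset]
      exact Fintype.card_coe T0.powerset
    omega
  rw [not_linearIndepOn_finset_iff] at hdep
  obtain ⟨lam, hlam, A0, hA0, hA0n⟩ := hdep
  have hrow : ∀ B, B ⊆ Tᶜ → ∑ A ∈ T0.powerset, lam A * a (A ∪ (T \ T0) ∪ B) = 0 := by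
    intro B hB
    have h1 := congrFun hlam ((T \ T0) ∪ B)
    rw [Finset.sum_apply] at h1
    rw [Pi.zero_apply] at h1
    rw [← h1]
    refine Finset.sum_congr rfl fun A hA => ?_
    rw [Finset.mem_powerset] at hA
    rw [Pi.smul_apply, smul_eq_mul]
    congr 1
    unfold row
    congr 1
    ext x
    have hx1 := @hA x
    have hx2 := @hT0 x
    have hx3 := @hB x
    simp only [Finset.mem_union, Finset.mem_sdiff, Finset.mem_inter, Finset.mem_compl] at hx3 ⊢
    tauto
  have hsum : ∑ A ∈ T0.powerset, C (lam A) *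
      (∑ B ∈ Tᶜ.powerset, C (a (A ∪ (T \ T0) ∪ B)) * ∏ i ∈ B, gm (K := K) n (2 * w) i) = 0 := by
    simp only [Finset.mul_sum]
    rw [Finset.sum_comm]
    refine Finset.sum_eq_zero fun B hB => ?_
    rw [Finset.mem_powerset] at hB
    have h1 := congrArg (C : K → K[X]) (hrow B hB)
    rw [map_sum, map_zero] at h1
    have h2 : ∀ A ∈ T0.powerset, C (lam A) * (C (a (A ∪ (T \ T0) ∪ B)) * ∏ i ∈ B, gm (K := K) n (2 * w) i) =
        C (lam A * a (A ∪ (T \ T0) ∪ B)) * ∏ i ∈ B, gm (K := K) n (2 * w) i := by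
      intro A _
      rw [C_mul]
      ring
    rw [Finset.sum_congr rfl h2, ← Finset.sum_mul, h1, zero_mul]
  have hA : ∀ A ∈ T0.powerset, C (lam A) *
      (∑ B ∈ Tᶜ.powerset, C (a (A ∪ (T \ T0) ∪ B)) * ∏ i ∈ B, gm (K := K) n (2 * w) i) =
      shift (fun A => C (a A)) (gm n (2 * w)) T *
        (C (lam A) * ∏ i ∈ T0 \ A, (-(gm (K := K) n (2 * w) i))) := by
    intro A hA
    rw [Finset.mem_powerset] at hA
    have h1 := min_coeff (fun A => C (a A) : Finset (Fin n) → K[X]) (gm n (2 * w)) T hmin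
      (A ∪ (T \ T0)) (Finset.union_subset (hA.trans hT0) Finset.sdiff_subset)
    have h2 : T \ (A ∪ (T \ T0)) = T0 \ A := by
      ext x
      have hx1 := @hA x
      have hx2 := @hT0 x
      simp only [Finset.mem_union, Finset.mem_sdiff]
      tauto
    rw [h2] at h1
    rw [h1]
    ring
  rw [Finset.sum_congr rfl hA, ← Finset.mul_sum] at hsum
  rcases mul_eq_zero.1 hsum with h | h
  · exact hT h
  · exact gm_li (K := K) (n := n) (2 * w) T0 (by rw [hT0c]; exact hN2) lam A0 (Finset.mem_powerset.1 hA0) hA0n h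

/- PLAN.  The polynomial of `conc` has degree at most `n * M1 n w` (`M1 n w = n * (2 * w) ^ 2`;
`natDegree (gm n s i) ≤ n * s^2`; each product has at most `n` factors), so it is not `0` at some
`t ≤ n * M1 n w` (`Polynomial.eq_zero_of_natDegree_lt_card_of_eval_eq_zero'`), and evaluation at
`t` is `map_shift` for `Polynomial.evalRingHom (t : K)` with `SPD.gamT_eval`. -/
theorem exists_t {K : Type*} [Field K] [CharZero K] {n w : ℕ} (a : Finset (Fin n) → K)
    (T : Finset (Fin n)) (hT : shift (fun A => C (a A)) (gm n (2 * w)) T ≠ 0) :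
    ∃ t ≤ n * M1 n w,
      shift a (fun i => ((SPD.hitPt (M1 n w) ((i : ℕ) + 1) t : ℕ) : K)) T ≠ 0 := by
  have hg : ∀ i, (gm (K := K) n (2 * w) i).natDegree ≤ M1 n w := by
    intro i
    unfold gm SPD.gamT M1
    refine natDegree_sum_le_of_forall_le _ _ fun k hk => ?_
    exact (natDegree_C_mul_X_pow_le _ _).trans (Nat.lt_succ_iff.1 (Finset.mem_range.1 hk))
  have hdeg : (shift (fun A => C (a A)) (gm n (2 * w)) T).natDegree ≤ n * M1 n w := by
    unfold shift
    refine natDegree_sum_le_of_forall_le _ _ fun A _ => ?_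
    split_ifs
    · refine (natDegree_C_mul_le _ _).trans ((natDegree_prod_le _ _).trans ?_)
      refine (Finset.sum_le_card_nsmul _ _ _ fun i _ => hg i).trans ?_
      rw [smul_eq_mul]
      refine Nat.mul_le_mul_right _ ?_
      exact (Finset.card_le_univ _).trans (by rw [Fintype.card_fin])
    · simp
  by_contra hcon
  push Not at hcon
  apply hT
  classical
  refine eq_zero_of_natDegree_lt_card_of_eval_eq_zero' _
    ((Finset.range (n * M1 n w + 1)).image (fun t : ℕ => (t : K))) ?_ ?_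
  · intro x hx
    obtain ⟨t, ht, rfl⟩ := Finset.mem_image.1 hx
    have h1 := hcon t (Nat.lt_succ_iff.1 (Finset.mem_range.1 ht))
    have h2 := map_shift (evalRingHom (t : K)) (fun A => C (a A)) (gm n (2 * w)) T
    rw [coe_evalRingHom] at h2
    rw [h2, ← h1]
    congr 1
    · funext A
      rw [eval_C]
    · funext i
      exact SPD.gamT_eval (n * (2 * w) ^ 2) ((i : ℕ) + 1) t
  · rw [Finset.card_image_of_injective _ Nat.cast_injective, Finset.card_range]
    exact Nat.lt_succ_of_le hdeg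

end Pool.Agent.AOR
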