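import Pool.Agent.SPD.Final

/-!
Project AOR (MP_e2be99_lc): explicit hitting sets of polynomial size for multilinear polynomials all
of whose flattenings have rank at most `w` (read-once oblivious branching programs in any order,
individual degree one).  Definitions.
-/

set_option autoImplicit false

namespace Pool.Agent.AOR

open Pool.Agent.SPD (hitPt)

/-- The value at `x` of the multilinear polynomial `∑_A a_A ∏_(i ∈ A) x_i`. -/
def mlEval {R : Type*} [CommRing R] {n : ℕ} (a : Finset (Fin n) → R) (x : Fin n → R) : R :=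
  ∑ A, a A * ∏ i ∈ A, x i

/-- The coefficients of the multilinear polynomial `f (p + x)`. -/
def shift {R : Type*} [CommRing R] {n : ℕ} (a : Finset (Fin n) → R) (p : Fin n → R) :
    Finset (Fin n) → R :=
  fun T => ∑ A, if T ⊆ A then a A * ∏ i ∈ A \ T, p i else 0

/-- The row with index `A` of the flattening of `a` with respect to the set `S` of variables. -/
def row {K : Type*} [Field K] {n : ℕ} (a : Finset (Fin n) → K) (S A : Finset (Fin n)) :
    Finset (Fin n) → K :=
  fun B => a ((A ∩ S) ∪ (B \ S))

/-- All flattenings of the multilinear polynomial with coefficients `a` have rank at most `w`. -/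
def Flat {K : Type*} [Field K] {n : ℕ} (w : ℕ) (a : Finset (Fin n) → K) : Prop :=
  ∀ S : Finset (Fin n), Module.finrank K (Submodule.span K (Set.range (row a S))) ≤ w

/-- The truncated logarithms (scaled) used as base curve. -/
noncomputable def gm {K : Type*} [Field K] (n s : ℕ) (i : Fin n) : Polynomial K :=
  SPD.gamT (n * s ^ 2) (((n * s ^ 2).factorial : K) * (((i : ℕ) + 1 : ℕ) : K))
    ((((i : ℕ) + 1 : ℕ)) : K)

/-- The part of the polynomial with coefficients `a` with exactly one variable in every colour in `E`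
and none in the other colours. -/
noncomputable def Hpoly {K : Type*} [Field K] {n c : ℕ} (a : Finset (Fin n) → K)
    (h : Fin n → Fin c) (E : Finset (Fin c)) : MvPolynomial (Fin n) K :=
  open Classical in
  ∑ T ∈ Finset.univ.filter (fun T : Finset (Fin n) =>
      Set.InjOn h (T : Set (Fin n)) ∧ T.image h = E),
    MvPolynomial.C (a T) * ∏ i ∈ T, MvPolynomial.X i

/-- The polynomial in the colour variables `y` obtained by `x_i = z_i y_(h i)`. -/
noncomputable def Rpoly {K : Type*} [Field K] {n c : ℕ} (a : Finset (Fin n) → K)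
    (h : Fin n → Fin c) (z : Fin n → K) : MvPolynomial (Fin c) K :=
  ∑ A : Finset (Fin n), MvPolynomial.C (a A * ∏ i ∈ A, z i) * ∏ i ∈ A, MvPolynomial.X (h i)

/-! ## The perfect hash family -/

/-- The bucket of `x` for the parameters `p`, `a` and `m` buckets. -/
def bucket (p a m x : ℕ) : ℕ := (a * x % p) % m

/-- The colour of `x` for a code: a list of `(p, a, B)`; at a code of length `j + 1` the number `x` is
thrown into one of `4 * 2^j` buckets; if the bucket is in `B` then the rest of the code is used,
otherwise the bucket gives the colour. -/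
def col : List (ℕ × ℕ × Finset ℕ) → ℕ → ℕ
  | [], _ => 0
  | (p, a, B) :: rest, x =>
    if bucket p a (4 * 2 ^ rest.length) x ∈ B then col rest x
    else bucket p a (4 * 2 ^ rest.length) x + 4 * (2 ^ rest.length - 1)

/-- The codes of length `j` with parameters `p, a ≤ 2 U`. -/
def codes (U : ℕ) : ℕ → Finset (List (ℕ × ℕ × Finset ℕ))
  | 0 => {[]}
  | j + 1 =>
    ((Finset.range (2 * U + 1) ×ˢ (Finset.range (2 * U + 1) ×ˢ
      (Finset.range (4 * 2 ^ j)).powerset)) ×ˢ codes U j).image (fun q => q.1 :: q.2)

/-- Length of the codes for sets of at most `k` elements. -/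
def len (k : ℕ) : ℕ := Nat.clog 2 (2 * k)

/-- Number of colours. -/
def ncol (k : ℕ) : ℕ := 4 * 2 ^ len k

theorem ncol_pos (k : ℕ) : 0 < ncol k := by
  unfold ncol
  positivity

/-- The colouring of `Fin n` for the parameters `p`, `a` and a code. -/
def hash (n k p a : ℕ) (code : List (ℕ × ℕ × Finset ℕ)) (i : Fin n) : Fin (ncol k) :=
  ⟨col code (bucket p a (k ^ 2) (i : ℕ)) % ncol k, Nat.mod_lt _ (ncol_pos k)⟩

/-- The family of colourings: it separates every set of at most `k` elements of `Fin n`. -/
def family (n k : ℕ) : Finset (Fin n → Fin (ncol k)) :=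
  (Finset.range (2 * n + 1) ×ˢ (Finset.range (2 * n + 1) ×ˢ codes (k ^ 2) (len k))).image
    (fun q => hash n k q.1 q.2.1 q.2.2)

/-! ## The points -/

/-- First parameter. -/
def M1 (n w : ℕ) : ℕ := n * (2 * w) ^ 2

/-- Second parameter. -/
def M2 (n w : ℕ) : ℕ := n * (w ^ 2) ^ 2

/-- Third parameter. -/
def M3 (k : ℕ) : ℕ := ncol k * (2 ^ (ncol k + k)) ^ 2

/-- The point with parameters `t, u, r, v` and colouring `h`. -/
def point (n w k t u r v : ℕ) (h : Fin n → Fin (ncol k)) (i : Fin n) : ℕ :=
  hitPt (M1 n w) ((i : ℕ) + 1) t +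
    hitPt (M2 n w) ((i : ℕ) + 1) u * (v * hitPt (M3 k) ((h i : ℕ) + 1) r)

/-- The hitting set. -/
def points (n w : ℕ) : Finset (Fin n → ℕ) :=
  (Finset.range (n * M1 n w + 1) ×ˢ (Finset.range (n * M2 n w + 1) ×ˢ
    (Finset.range (Nat.log 2 w * M3 (Nat.log 2 w) + 1) ×ˢ (Finset.range (n + 1) ×ˢ
      family n (Nat.log 2 w))))).image
    (fun q => point n w (Nat.log 2 w) q.1 q.2.1 q.2.2.1 q.2.2.2.1 q.2.2.2.2)

end Pool.Agent.AOR
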