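import Pool.Agent.AOR.Defs

set_option autoImplicit false

namespace Pool.Agent.AOR

private theorem hne_sum_apply {α β : Type*} [DecidableEq β] (A : Finset α) (h : α → β) (j : β) :
    (∑ i ∈ A, Finsupp.single (h i) 1 : β →₀ ℕ) j = (A.filter fun i => h i = j).card := by
  rw [Finsupp.finsetSum_apply, Finset.card_filter]
  refine Finset.sum_congr rfl fun i _ => ?_
  rw [Finsupp.single_apply]

private theorem hne_iff {α β : Type*} [DecidableEq β] (A : Finset α) (h : α → β) (E : Finset β) :
    (∑ i ∈ A, Finsupp.single (h i) 1 : β →₀ ℕ) = ∑ j ∈ E, Finsupp.single j 1 ↔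
      Set.InjOn h (A : Set α) ∧ A.image h = E := by
  constructor
  · intro hs
    have key : ∀ j, (A.filter fun i => h i = j).card = (E.filter fun i => i = j).card := by
      intro j
      rw [← hne_sum_apply A h j, ← hne_sum_apply E (fun i => i) j, hs]
    constructor
    · intro x hx y hy hxy
      have h1 : (E.filter fun i => i = h y).card ≤ 1 := by
        rw [Finset.card_le_one]
        intro p hp q hq
        rw [Finset.mem_filter] at hp hq
        rw [hp.2, hq.2]
      rw [← key] at h1
      exact Finset.card_le_one.mp h1 x (Finset.mem_filter.mpr ⟨hx, hxy⟩) y (Finset.mem_filter.mpr ⟨hy, rfl⟩)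
    · ext j
      rw [Finset.mem_image]
      constructor
      · rintro ⟨i, hi, hij⟩
        have h1 : 0 < (A.filter fun i => h i = j).card :=
          Finset.card_pos.mpr ⟨i, Finset.mem_filter.mpr ⟨hi, hij⟩⟩
        rw [key] at h1
        obtain ⟨q, hq⟩ := Finset.card_pos.mp h1
        rw [Finset.mem_filter] at hq
        rw [← hq.2]
        exact hq.1
      · intro hj
        have h1 : 0 < (E.filter fun i => i = j).card :=
          Finset.card_pos.mpr ⟨j, Finset.mem_filter.mpr ⟨hj, rfl⟩⟩
        rw [← key] at h1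
        obtain ⟨i, hi⟩ := Finset.card_pos.mp h1
        rw [Finset.mem_filter] at hi
        exact ⟨i, hi.1, hi.2⟩
  · rintro ⟨hinj, rfl⟩
    rw [Finset.sum_image hinj]

private theorem hne_prod {K : Type*} [Field K] {α β : Type*} (A : Finset α) (h : α → β) :
    (∏ i ∈ A, MvPolynomial.X (h i) : MvPolynomial β K) =
      MvPolynomial.monomial (∑ i ∈ A, Finsupp.single (h i) 1) 1 := by
  rw [MvPolynomial.monomial_sum_one]
  rfl

private theorem hne_coeff {K : Type*} [Field K] {α β : Type*} [DecidableEq β] (A : Finset α) (h : α → β)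
    (E : Finset β) [Decidable (Set.InjOn h (A : Set α) ∧ A.image h = E)] (r : K) :
    MvPolynomial.coeff (∑ j ∈ E, Finsupp.single j 1) (MvPolynomial.C r * ∏ i ∈ A, MvPolynomial.X (h i)) =
      if Set.InjOn h (A : Set α) ∧ A.image h = E then r else 0 := by
  rw [MvPolynomial.coeff_C_mul, hne_prod, MvPolynomial.coeff_monomial]
  by_cases hc : Set.InjOn h (A : Set α) ∧ A.image h = E
  · rw [if_pos hc, if_pos ((hne_iff A h E).mpr hc), mul_one]
  · rw [if_neg hc, if_neg (fun h' => hc ((hne_iff A h E).mp h')), mul_zero]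

theorem Hpoly_ne_zero {K : Type*} [Field K] {n c : ℕ} (a : Finset (Fin n) → K)
    (h : Fin n → Fin c) (T : Finset (Fin n)) (hT : Set.InjOn h (T : Set (Fin n)))
    (ha : a T ≠ 0) : Hpoly a h (T.image h) ≠ 0 := by
  classical
  intro h0
  have h1 : MvPolynomial.coeff (∑ j ∈ T, Finsupp.single j 1) (Hpoly a h (T.image h)) = a T := by
    unfold Hpoly
    rw [MvPolynomial.coeff_sum, Finset.sum_eq_single T]
    · rw [hne_coeff T (fun i => i) T, if_pos ⟨fun _ _ _ _ h => h, Finset.image_id' ⟩]
    · intro T' _ hne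
      rw [hne_coeff T' (fun i => i) T, if_neg]
      rintro ⟨_, h2⟩
      apply hne
      rw [← h2, Finset.image_id']
    · intro h2
      exfalso
      apply h2
      rw [Finset.mem_filter]
      exact ⟨Finset.mem_univ _, hT, rfl⟩
  rw [h0, MvPolynomial.coeff_zero] at h1
  exact ha h1.symm

theorem Hpoly_totalDegree {K : Type*} [Field K] {n c : ℕ} (a : Finset (Fin n) → K)
    (h : Fin n → Fin c) (E : Finset (Fin c)) : (Hpoly a h E).totalDegree ≤ E.card := by
  classical
  unfold Hpoly
  refine MvPolynomial.totalDegree_finsetSum_le fun T hT => ?_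
  rw [Finset.mem_filter] at hT
  have h1 : T.card = E.card := by
    rw [← hT.2.2, Finset.card_image_of_injOn hT.2.1]
  refine le_trans (MvPolynomial.totalDegree_mul _ _) ?_
  rw [MvPolynomial.totalDegree_C, zero_add, ← h1]
  refine le_trans (MvPolynomial.totalDegree_finsetProd _ _) ?_
  refine le_trans (Finset.sum_le_card_nsmul _ _ 1 fun i _ => ?_) (by simp)
  exact le_of_eq (MvPolynomial.totalDegree_X i)

theorem coeff_Rpoly {K : Type*} [Field K] {n c : ℕ} (a : Finset (Fin n) → K)
    (h : Fin n → Fin c) (z : Fin n → K) (E : Finset (Fin c)) :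
    MvPolynomial.coeff (∑ j ∈ E, Finsupp.single j 1) (Rpoly a h z) =
      MvPolynomial.eval z (Hpoly a h E) := by
  classical
  unfold Rpoly Hpoly
  rw [MvPolynomial.coeff_sum, map_sum, Finset.sum_filter]
  refine Finset.sum_congr rfl fun A _ => ?_
  rw [hne_coeff A h E]
  by_cases hc : Set.InjOn h (A : Set (Fin n)) ∧ A.image h = E
  · rw [if_pos hc, if_pos hc]
    simp
  · rw [if_neg hc, if_neg hc]

theorem eval_Rpoly {K : Type*} [Field K] {n c : ℕ} (a : Finset (Fin n) → K)
    (h : Fin n → Fin c) (z : Fin n → K) (y : Fin c → K) :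
    MvPolynomial.eval y (Rpoly a h z) = mlEval a (fun i => z i * y (h i)) := by
  unfold Rpoly mlEval
  rw [map_sum]
  refine Finset.sum_congr rfl fun A _ => ?_
  rw [map_mul, MvPolynomial.eval_C, MvPolynomial.eval_prod, Finset.prod_mul_distrib, mul_assoc]
  simp

end Pool.Agent.AOR
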