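import Pool.Agent.AOR.Defs

set_option autoImplicit false

namespace Pool.Agent.AOR

/- PLAN.  `p` prime, `x ≠ y < p`, `m ≥ 1`.  If `bucket p a m x = bucket p a m y` for `1 ≤ a < p`, then
the integer `δ = (a x mod p) - (a y mod p)` is not `0` (`p ∤ a (x - y)`), `|δ| < p` and `m ∣ δ`; and
`δ` determines `a` (`a (x - y) ≡ δ mod p`).  The number of such `δ` is `2 * ((p - 1) / m)`. -/
theorem card_collide (p m x y : ℕ) (hp : p.Prime) (hm : 1 ≤ m) (hx : x < p) (hy : y < p)
    (hxy : x ≠ y) :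
    ((Finset.Icc 1 (p - 1)).filter (fun a => bucket p a m x = bucket p a m y)).card ≤
      2 * ((p - 1) / m) := by
  classical
  have hp0 : 0 < p := hp.pos
  have hpZ : (0 : ℤ) < p := by exact_mod_cast hp0
  set K : ℕ := (p - 1) / m with hK
  set T : Finset ℤ := (Finset.Icc 1 K).image (fun k : ℕ => ((m * k : ℕ) : ℤ)) ∪
    (Finset.Icc 1 K).image (fun k : ℕ => -((m * k : ℕ) : ℤ)) with hT
  have hTc : T.card ≤ 2 * K := by
    calc T.card ≤ ((Finset.Icc 1 K).image (fun k : ℕ => ((m * k : ℕ) : ℤ))).card +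
        ((Finset.Icc 1 K).image (fun k : ℕ => -((m * k : ℕ) : ℤ))).card := Finset.card_union_le _ _
      _ ≤ (Finset.Icc 1 K).card + (Finset.Icc 1 K).card :=
          add_le_add Finset.card_image_le Finset.card_image_le
      _ = 2 * K := by rw [Nat.card_Icc]; omega
  -- the difference modulo `p`
  have hdvd : ∀ a : ℕ, (p : ℤ) ∣ ((a * x % p : ℕ) : ℤ) - ((a * y % p : ℕ) : ℤ) -
      (a : ℤ) * ((x : ℤ) - y) := by
    intro a
    have h1 : (p : ℤ) ∣ ((a * x : ℕ) : ℤ) - ((a * x % p : ℕ) : ℤ) := by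
      refine ⟨((a * x / p : ℕ) : ℤ), ?_⟩
      have := Nat.div_add_mod (a * x) p
      have h2 : ((a * x : ℕ) : ℤ) = (p : ℤ) * ((a * x / p : ℕ) : ℤ) + ((a * x % p : ℕ) : ℤ) := by
        exact_mod_cast this.symm
      rw [h2]; ring
    have h2 : (p : ℤ) ∣ ((a * y : ℕ) : ℤ) - ((a * y % p : ℕ) : ℤ) := by
      refine ⟨((a * y / p : ℕ) : ℤ), ?_⟩
      have := Nat.div_add_mod (a * y) p
      have h2 : ((a * y : ℕ) : ℤ) = (p : ℤ) * ((a * y / p : ℕ) : ℤ) + ((a * y % p : ℕ) : ℤ) := by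
        exact_mod_cast this.symm
      rw [h2]; ring
    have h3 := dvd_sub h2 h1
    have h4 : ((a * y : ℕ) : ℤ) - ((a * y % p : ℕ) : ℤ) -
        (((a * x : ℕ) : ℤ) - ((a * x % p : ℕ) : ℤ)) =
        ((a * x % p : ℕ) : ℤ) - ((a * y % p : ℕ) : ℤ) - (a : ℤ) * ((x : ℤ) - y) := by
      push_cast; ring
    rwa [h4] at h3
  have hpp : Prime (p : ℤ) := Nat.prime_iff_prime_int.mp hp
  have hxyd : ¬ (p : ℤ) ∣ (x : ℤ) - y := by
    intro h
    have h1 : |(x : ℤ) - y| < p := by
      rw [abs_lt]; constructor <;> omega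
    have h2 := Int.eq_zero_of_abs_lt_dvd h h1
    omega
  have hmaps : ∀ a ∈ (Finset.Icc 1 (p - 1)).filter (fun a => bucket p a m x = bucket p a m y),
      ((a * x % p : ℕ) : ℤ) - ((a * y % p : ℕ) : ℤ) ∈ T := by
    intro a ha
    rw [Finset.mem_filter, Finset.mem_Icc] at ha
    obtain ⟨⟨ha1, ha2⟩, hb⟩ := ha
    unfold bucket at hb
    set u := a * x % p with hu
    set v := a * y % p with hv
    have hup : u < p := Nat.mod_lt _ hp0
    have hvp : v < p := Nat.mod_lt _ hp0
    have hne : u ≠ v := by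
      intro h
      have h1 := hdvd a
      rw [← hu, ← hv, h, sub_self, zero_sub, dvd_neg] at h1
      rcases hpp.dvd_or_dvd h1 with h2 | h2
      · have h3 : p ∣ a := by exact_mod_cast h2
        have := Nat.le_of_dvd (by omega) h3
        omega
      · exact hxyd h2
    have hmod : u ≡ v [MOD m] := hb
    rw [hT, Finset.mem_union, Finset.mem_image, Finset.mem_image]
    rcases Nat.lt_or_gt_of_ne hne with hlt | hgt
    · right
      have h1 : m ∣ v - u := (Nat.modEq_iff_dvd' hlt.le).mp hmod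
      obtain ⟨k, hk⟩ := h1
      refine ⟨k, ?_, ?_⟩
      · rw [Finset.mem_Icc]
        constructor
        · rcases Nat.eq_zero_or_pos k with h0 | h0
          · subst h0; omega
          · exact h0
        · rw [hK, Nat.le_div_iff_mul_le (by omega), mul_comm, ← hk]
          omega
      · rw [← hk]; omega
    · left
      have h1 : m ∣ u - v := (Nat.modEq_iff_dvd' hgt.le).mp hmod.symm
      obtain ⟨k, hk⟩ := h1
      refine ⟨k, ?_, ?_⟩
      · rw [Finset.mem_Icc]
        constructor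
        · rcases Nat.eq_zero_or_pos k with h0 | h0
          · subst h0; omega
          · exact h0
        · rw [hK, Nat.le_div_iff_mul_le (by omega), mul_comm, ← hk]
          omega
      · rw [← hk]; omega
  refine le_trans (Finset.card_le_card_of_injOn
    (fun a : ℕ => ((a * x % p : ℕ) : ℤ) - ((a * y % p : ℕ) : ℤ)) hmaps ?_) hTc
  intro a ha b hb hab
  rw [Finset.mem_coe, Finset.mem_filter, Finset.mem_Icc] at ha hb
  have h1 := hdvd a
  have h2 := hdvd b
  simp only at hab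
  have h3 := dvd_sub h1 h2
  have h4 : ((a * x % p : ℕ) : ℤ) - ((a * y % p : ℕ) : ℤ) - (a : ℤ) * ((x : ℤ) - y) -
      (((b * x % p : ℕ) : ℤ) - ((b * y % p : ℕ) : ℤ) - (b : ℤ) * ((x : ℤ) - y)) =
      ((b : ℤ) - a) * ((x : ℤ) - y) := by
    rw [hab]; ring
  rw [h4] at h3
  rcases hpp.dvd_or_dvd h3 with h5 | h5
  · have h6 : |(b : ℤ) - a| < p := by
      rw [abs_lt]; constructor <;> omega
    have h7 := Int.eq_zero_of_abs_lt_dvd h5 h6
    omega
  · exact absurd h5 hxyd

end Pool.Agent.AOR
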