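import Pool.Agent.AOR.HashA

set_option autoImplicit false

namespace Pool.Agent.AOR

theorem avg (p m : ℕ) (hp : p.Prime) (hm : 1 ≤ m) (T : Finset ℕ) (hT : ∀ x ∈ T, x < p) :
    ∑ a ∈ Finset.Icc 1 (p - 1), (T.offDiag.filter
      (fun q => bucket p a m q.1 = bucket p a m q.2)).card ≤
      (T.card * T.card - T.card) * (2 * ((p - 1) / m)) := by
  simp_rw [Finset.card_filter]
  rw [Finset.sum_comm]
  simp_rw [← Finset.card_filter]
  calc ∑ q ∈ T.offDiag, ((Finset.Icc 1 (p - 1)).filter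
        (fun a => bucket p a m q.1 = bucket p a m q.2)).card
      ≤ ∑ _q ∈ T.offDiag, 2 * ((p - 1) / m) := by
        apply Finset.sum_le_sum
        intro q hq
        rw [Finset.mem_offDiag] at hq
        exact card_collide p m q.1 q.2 hp hm (hT _ hq.1) (hT _ hq.2.1) hq.2.2
    _ = (T.card * T.card - T.card) * (2 * ((p - 1) / m)) := by
        rw [Finset.sum_const, Finset.offDiag_card, smul_eq_mul]

/- PLAN.  `n ≥ 1` (there is an element) and `k ≥ 1`, or `T` is empty and everything is trivial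
(`T.card ≤ 1` is trivial too: take any `p, a`).  By `Nat.exists_prime_lt_and_le_two_mul n` there
is a prime `n < p ≤ 2 n`.  Count the pairs `(a, {x < y in T})` with a collision: by `card_collide` at
most `T.card.choose 2 * (2 * ((p - 1) / k^2)) ≤ (k (k - 1) / 2) * 2 (p - 1) / k^2 < p - 1`; so some
`a` with `1 ≤ a ≤ p - 1` has no collision. -/
theorem level_zero (n k : ℕ) (T : Finset (Fin n)) (hT : T.card ≤ k) :
    ∃ p ≤ 2 * n, ∃ a ≤ 2 * n,
      Set.InjOn (fun i : Fin n => bucket p a (k ^ 2) (i : ℕ)) (T : Set (Fin n)) := by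
  rcases T.eq_empty_or_nonempty with rfl | hne
  · exact ⟨0, Nat.zero_le _, 0, Nat.zero_le _, by simp⟩
  have hk : 1 ≤ k := le_trans (Finset.card_pos.2 hne) hT
  obtain ⟨i0, hi0⟩ := hne
  have hn : n ≠ 0 := by
    rintro rfl
    exact i0.elim0
  obtain ⟨p, hp, hnp, hp2⟩ := Nat.exists_prime_lt_and_le_two_mul n hn
  have hp1 : 1 ≤ p - 1 := by
    have := hp.two_le
    omega
  have hk2 : 1 ≤ k ^ 2 := Nat.one_le_pow _ _ hk
  let T' : Finset ℕ := T.image (fun i : Fin n => (i : ℕ))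
  have hT'c : T'.card = T.card := Finset.card_image_of_injective _ Fin.val_injective
  have hT'p : ∀ x ∈ T', x < p := by
    intro x hx
    obtain ⟨i, -, rfl⟩ := Finset.mem_image.1 hx
    exact lt_trans i.2 hnp
  have havg := avg p (k ^ 2) hp hk2 T' hT'p
  by_contra hcon
  push Not at hcon
  have h1 : ∀ a ∈ Finset.Icc 1 (p - 1), 2 ≤ (T'.offDiag.filter
      (fun q => bucket p a (k ^ 2) q.1 = bucket p a (k ^ 2) q.2)).card := by
    intro a ha
    rw [Finset.mem_Icc] at ha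
    have h2 := hcon p hp2 a (by omega)
    rw [Set.InjOn] at h2
    push Not at h2
    obtain ⟨i, hi, i', hi', he, hne⟩ := h2
    have hne' : (i : ℕ) ≠ (i' : ℕ) := fun h => hne (Fin.ext h)
    have hiT : (i : ℕ) ∈ T' := Finset.mem_image_of_mem _ (Finset.mem_coe.1 hi)
    have hiT' : (i' : ℕ) ∈ T' := Finset.mem_image_of_mem _ (Finset.mem_coe.1 hi')
    have h3 : ({((i : ℕ), (i' : ℕ)), ((i' : ℕ), (i : ℕ))} : Finset (ℕ × ℕ)) ⊆ T'.offDiag.filter
        (fun q => bucket p a (k ^ 2) q.1 = bucket p a (k ^ 2) q.2) := by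
      intro q hq
      rw [Finset.mem_insert, Finset.mem_singleton] at hq
      rw [Finset.mem_filter, Finset.mem_offDiag]
      rcases hq with rfl | rfl
      · exact ⟨⟨hiT, hiT', hne'⟩, he⟩
      · exact ⟨⟨hiT', hiT, hne'.symm⟩, he.symm⟩
    have h4 := Finset.card_le_card h3
    rw [Finset.card_pair (fun h => hne' (congrArg Prod.fst h))] at h4
    exact h4
  have h2 : (p - 1) * 2 ≤ ∑ a ∈ Finset.Icc 1 (p - 1), (T'.offDiag.filter
      (fun q => bucket p a (k ^ 2) q.1 = bucket p a (k ^ 2) q.2)).card := by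
    calc (p - 1) * 2 = ∑ _a ∈ Finset.Icc 1 (p - 1), 2 := by
          rw [Finset.sum_const, Nat.card_Icc, smul_eq_mul]; rfl
      _ ≤ _ := Finset.sum_le_sum h1
  have h3 := h2.trans havg
  have h4 : k ^ 2 * ((p - 1) / k ^ 2) ≤ p - 1 := Nat.mul_div_le _ _
  have h5 : T'.card * T'.card - T'.card ≤ k ^ 2 - 1 := by
    have h6 : 1 ≤ T'.card := by
      rw [hT'c]
      exact Finset.card_pos.2 ⟨i0, hi0⟩
    have h7 : T'.card * T'.card ≤ k ^ 2 := by
      rw [sq, hT'c]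
      exact Nat.mul_le_mul hT hT
    omega
  obtain ⟨q, hq⟩ : ∃ q, q = (p - 1) / k ^ 2 := ⟨_, rfl⟩
  rw [← hq] at h3 h4
  have h8 : (p - 1) * 2 ≤ (k ^ 2 - 1) * (2 * q) := h3.trans (Nat.mul_le_mul_right _ h5)
  have h9 : (k ^ 2 - 1) * (2 * q) + 2 * q = 2 * (k ^ 2 * q) := by
    obtain ⟨r, hr⟩ : ∃ r, k ^ 2 = r + 1 := ⟨k ^ 2 - 1, by omega⟩
    rw [hr, Nat.add_sub_cancel]
    ring
  have h10 : q = 0 := by omega
  rw [h10] at h8
  omega

/- PLAN.  If `T.card ≤ 1` there is no collision (take `p = a = 0`).  Otherwise `U ≥ 1`; prime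
`U < p ≤ 2 U`.  By `card_collide` and averaging there is `1 ≤ a ≤ p - 1` for which the number of
colliding pairs `x < y` in `T` is at most `T.card.choose 2 * 2 / (4 * 2^j) ≤ T.card^2 / (4 * 2^j) ≤
T.card / 4` (`T.card ≤ 2^j`); each colliding element is in a colliding pair, so at most
`T.card / 2 ≤ 2^j / 2` elements collide: the colliding set `T'` has `2 * T'.card ≤ 2^j`. -/
theorem level_step (U j : ℕ) (T : Finset ℕ) (hTU : ∀ x ∈ T, x < U) (hT : T.card ≤ 2 ^ j) :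
    ∃ p ≤ 2 * U, ∃ a ≤ 2 * U,
      2 * (T.filter (fun x => ∃ y ∈ T, y ≠ x ∧
        bucket p a (4 * 2 ^ j) x = bucket p a (4 * 2 ^ j) y)).card ≤ 2 ^ j := by
  rcases T.eq_empty_or_nonempty with rfl | hne
  · exact ⟨0, Nat.zero_le _, 0, Nat.zero_le _, by simp⟩
  obtain ⟨x0, hx0⟩ := hne
  have hU : U ≠ 0 := by
    have := hTU x0 hx0
    omega
  obtain ⟨p, hp, hnp, hp2⟩ := Nat.exists_prime_lt_and_le_two_mul U hU
  have hp1 : 1 ≤ p - 1 := by
    have := hp.two_le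
    omega
  have hm : 1 ≤ 4 * 2 ^ j := by
    have : 1 ≤ 2 ^ j := Nat.one_le_two_pow
    omega
  have havg := avg p (4 * 2 ^ j) hp hm T (fun x hx => lt_trans (hTU x hx) hnp)
  have h1 : ∃ a ∈ Finset.Icc 1 (p - 1), 2 * (T.offDiag.filter
      (fun q => bucket p a (4 * 2 ^ j) q.1 = bucket p a (4 * 2 ^ j) q.2)).card ≤ 2 ^ j := by
    by_contra hcon
    push Not at hcon
    have h2 : (p - 1) * (2 ^ j + 1) ≤ ∑ a ∈ Finset.Icc 1 (p - 1), 2 * (T.offDiag.filter
        (fun q => bucket p a (4 * 2 ^ j) q.1 = bucket p a (4 * 2 ^ j) q.2)).card := by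
      calc (p - 1) * (2 ^ j + 1) = ∑ _a ∈ Finset.Icc 1 (p - 1), (2 ^ j + 1) := by
            rw [Finset.sum_const, Nat.card_Icc, smul_eq_mul]; rfl
        _ ≤ _ := Finset.sum_le_sum fun a ha => hcon a ha
    rw [← Finset.mul_sum] at h2
    have h4 : 4 * 2 ^ j * ((p - 1) / (4 * 2 ^ j)) ≤ p - 1 := Nat.mul_div_le _ _
    obtain ⟨q, hq⟩ : ∃ q, q = (p - 1) / (4 * 2 ^ j) := ⟨_, rfl⟩
    rw [← hq] at havg h4
    have h5 : T.card * T.card - T.card ≤ 2 ^ j * 2 ^ j :=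
      (Nat.sub_le _ _).trans (Nat.mul_le_mul hT hT)
    have h6 : (p - 1) * (2 ^ j + 1) ≤ 2 ^ j * (p - 1) := by
      calc (p - 1) * (2 ^ j + 1) ≤ 2 * ((T.card * T.card - T.card) * (2 * q)) :=
            h2.trans (Nat.mul_le_mul_left _ havg)
        _ ≤ 2 * (2 ^ j * 2 ^ j * (2 * q)) :=
            Nat.mul_le_mul_left _ (Nat.mul_le_mul_right _ h5)
        _ = 2 ^ j * (4 * 2 ^ j * q) := by ring
        _ ≤ 2 ^ j * (p - 1) := Nat.mul_le_mul_left _ h4
    have h7 : (p - 1) * (2 ^ j + 1) = 2 ^ j * (p - 1) + (p - 1) := by ring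
    omega
  obtain ⟨a, ha, hN⟩ := h1
  rw [Finset.mem_Icc] at ha
  refine ⟨p, hp2, a, by omega, le_trans (Nat.mul_le_mul_left 2 ?_) hN⟩
  have h2 : (T.filter (fun x => ∃ y ∈ T, y ≠ x ∧
      bucket p a (4 * 2 ^ j) x = bucket p a (4 * 2 ^ j) y)) ⊆
      (T.offDiag.filter (fun q => bucket p a (4 * 2 ^ j) q.1 =
        bucket p a (4 * 2 ^ j) q.2)).image Prod.fst := by
    intro x hx
    rw [Finset.mem_filter] at hx
    obtain ⟨hxT, y, hyT, hyx, he⟩ := hx
    rw [Finset.mem_image]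
    refine ⟨(x, y), ?_, rfl⟩
    rw [Finset.mem_filter, Finset.mem_offDiag]
    exact ⟨⟨hxT, hyT, fun h => hyx h.symm⟩, he⟩
  exact (Finset.card_le_card h2).trans Finset.card_image_le

end Pool.Agent.AOR
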