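import Pool.Agent.AOR.Defs

set_option autoImplicit false

namespace Pool.Agent.AOR

private theorem shr_split {K : Type*} [Field K] {n : ℕ} (S : Finset (Fin n)) (f : Finset (Fin n) → K) :
    ∑ C, f C = ∑ A' : Finset (Fin n), ∑ B' : Finset (Fin n), if A' ⊆ S ∧ Disjoint B' S then f (A' ∪ B') else 0 := by
  rw [← Finset.sum_product' (f := fun A' B' : Finset (Fin n) => if A' ⊆ S ∧ Disjoint B' S then f (A' ∪ B') else 0),
    ← Finset.sum_filter]
  refine Finset.sum_nbij' (fun C => (C ∩ S, C \ S)) (fun x => x.1 ∪ x.2) ?_ ?_ ?_ ?_ ?_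
  · intro C _
    rw [Finset.mem_filter]
    exact ⟨Finset.mem_product.2 ⟨Finset.mem_univ _, Finset.mem_univ _⟩, Finset.inter_subset_right, Finset.sdiff_disjoint⟩
  · intro x _
    exact Finset.mem_univ _
  · intro C _
    ext i
    simp only [Finset.mem_union, Finset.mem_inter, Finset.mem_sdiff]
    tauto
  · rintro ⟨A', B'⟩ hx
    rw [Finset.mem_filter] at hx
    have h1 : A' ⊆ S := hx.2.1
    have h2 : Disjoint B' S := hx.2.2
    rw [Finset.disjoint_left] at h2
    refine Prod.ext ?_ ?_
    · show (A' ∪ B') ∩ S = A'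
      ext i
      have h3 := @h1 i
      have h4 := @h2 i
      simp only [Finset.mem_union, Finset.mem_inter]
      tauto
    · show (A' ∪ B') \ S = B'
      ext i
      have h3 := @h1 i
      have h4 := @h2 i
      simp only [Finset.mem_union, Finset.mem_sdiff]
      tauto
  · intro C _
    show f C = f ((C ∩ S) ∪ (C \ S))
    congr 1
    ext i
    simp only [Finset.mem_union, Finset.mem_inter, Finset.mem_sdiff]
    tauto

private noncomputable def shrL {K : Type*} [Field K] {n : ℕ} (p : Fin n → K) (S : Finset (Fin n)) :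
    (Finset (Fin n) → K) →ₗ[K] (Finset (Fin n) → K) where
  toFun r := fun B => ∑ B' : Finset (Fin n), if B \ S ⊆ B' ∧ Disjoint B' S then r B' * ∏ i ∈ B' \ (B \ S), p i else 0
  map_add' r r' := by
    funext B
    rw [Pi.add_apply, ← Finset.sum_add_distrib]
    refine Finset.sum_congr rfl fun B' _ => ?_
    split_ifs
    · rw [Pi.add_apply, add_mul]
    · rw [add_zero]
  map_smul' c r := by
    funext B
    rw [Pi.smul_apply, smul_eq_mul, Finset.mul_sum]
    refine Finset.sum_congr rfl fun B' _ => ?_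
    rw [RingHom.id_apply]
    split_ifs
    · rw [Pi.smul_apply, smul_eq_mul, mul_assoc]
    · rw [mul_zero]

private theorem shr_term {K : Type*} [Field K] {n : ℕ} (a : Finset (Fin n) → K) (p : Fin n → K)
    (S A B A' B' : Finset (Fin n)) :
    (if A' ⊆ S ∧ Disjoint B' S then (if (A ∩ S) ∪ (B \ S) ⊆ A' ∪ B' then
      a (A' ∪ B') * ∏ i ∈ (A' ∪ B') \ ((A ∩ S) ∪ (B \ S)), p i else 0) else 0) =
    if A ∩ S ⊆ A' ∧ A' ⊆ S then (∏ i ∈ A' \ (A ∩ S), p i) *
      (if B \ S ⊆ B' ∧ Disjoint B' S then a ((A' ∩ S) ∪ (B' \ S)) * ∏ i ∈ B' \ (B \ S), p i else 0) else 0 := by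
  by_cases hA : A' ⊆ S
  · by_cases hB : Disjoint B' S
    · have hB' := Finset.disjoint_left.1 hB
      have h1 : ((A ∩ S) ∪ (B \ S) ⊆ A' ∪ B') ↔ (A ∩ S ⊆ A' ∧ B \ S ⊆ B') := by
        constructor
        · intro h
          constructor
          · intro i hi
            have h2 := h (Finset.mem_union_left _ hi)
            rw [Finset.mem_union] at h2
            rcases h2 with h2 | h2
            · exact h2
            · exact absurd (Finset.mem_inter.1 hi).2 (hB' h2)
          · intro i hi
            have h2 := h (Finset.mem_union_right _ hi)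
            rw [Finset.mem_union] at h2
            rcases h2 with h2 | h2
            · exact absurd (hA h2) (Finset.mem_sdiff.1 hi).2
            · exact h2
        · rintro ⟨h2, h3⟩
          exact Finset.union_subset_union h2 h3
      rw [if_pos ⟨hA, hB⟩]
      by_cases hC : A ∩ S ⊆ A'
      · by_cases hD : B \ S ⊆ B'
        · rw [if_pos (h1.2 ⟨hC, hD⟩), if_pos ⟨hC, hA⟩, if_pos ⟨hD, hB⟩]
          have h2 : (A' ∪ B') \ ((A ∩ S) ∪ (B \ S)) = (A' \ (A ∩ S)) ∪ (B' \ (B \ S)) := by
            ext i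
            have h3 := @hA i
            have h4 := @hB' i
            simp only [Finset.mem_union, Finset.mem_sdiff, Finset.mem_inter]
            tauto
          have h3 : Disjoint (A' \ (A ∩ S)) (B' \ (B \ S)) := by
            rw [Finset.disjoint_left]
            intro i hi hi'
            exact hB' (Finset.mem_sdiff.1 hi').1 (hA (Finset.mem_sdiff.1 hi).1)
          have h4 : (A' ∩ S) ∪ (B' \ S) = A' ∪ B' := by
            ext i
            have h3 := @hA i
            have h4 := @hB' i
            simp only [Finset.mem_union, Finset.mem_sdiff, Finset.mem_inter]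
            tauto
          rw [h2, Finset.prod_union h3, h4]
          ring
        · rw [if_neg (fun h => hD (h1.1 h).2), if_pos ⟨hC, hA⟩, if_neg (fun h => hD h.1), mul_zero]
      · rw [if_neg (fun h => hC (h1.1 h).1), if_neg (fun h => hC h.1)]
    · rw [if_neg (fun h => hB h.2)]
      split_ifs with h1 h2
      · exact absurd h2.2 hB
      · rw [mul_zero]
      · rfl
  · rw [if_neg (fun h => hA h.1), if_neg (fun h => hA h.2)]

private theorem shr_row {K : Type*} [Field K] {n : ℕ} (a : Finset (Fin n) → K) (p : Fin n → K)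
    (S A : Finset (Fin n)) : row (shift a p) S A = ∑ A' : Finset (Fin n), (if A ∩ S ⊆ A' ∧ A' ⊆ S then
      ∏ i ∈ A' \ (A ∩ S), p i else 0) • shrL p S (row a S A') := by
  funext B
  rw [Finset.sum_apply]
  unfold row shift
  rw [shr_split S]
  refine Finset.sum_congr rfl fun A' _ => ?_
  rw [Pi.smul_apply, smul_eq_mul, ite_mul, zero_mul]
  have h1 : (shrL p S (fun B => a ((A' ∩ S) ∪ (B \ S)))) B =
      ∑ B' : Finset (Fin n), if B \ S ⊆ B' ∧ Disjoint B' S then a ((A' ∩ S) ∪ (B' \ S)) * ∏ i ∈ B' \ (B \ S), p i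
        else 0 := rfl
  rw [h1, Finset.mul_sum]
  by_cases hc : A ∩ S ⊆ A' ∧ A' ⊆ S
  · rw [if_pos hc]
    refine Finset.sum_congr rfl fun B' _ => ?_
    rw [shr_term, if_pos hc]
  · rw [if_neg hc]
    refine Finset.sum_eq_zero fun B' _ => ?_
    rw [shr_term, if_neg hc]

theorem Flat.shift {K : Type*} [Field K] {n w : ℕ} {a : Finset (Fin n) → K} (h : Flat w a)
    (p : Fin n → K) : Flat w (shift a p) := by
  intro S
  refine (le_trans ?_ (Submodule.finrank_map_le (shrL p S) _)).trans (h S)
  refine Submodule.finrank_mono ?_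
  rw [Submodule.span_le]
  rintro _ ⟨A, rfl⟩
  rw [SetLike.mem_coe, shr_row]
  refine Submodule.sum_mem _ fun A' _ => Submodule.smul_mem _ _ ?_
  exact Submodule.mem_map_of_mem (Submodule.subset_span ⟨A', rfl⟩)

end Pool.Agent.AOR
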