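import Pool.Agent.AOR.Conc
import Pool.Agent.AOR.ShRank
import Pool.Agent.AOR.HDer
import Pool.Agent.AOR.Homog
import Pool.Agent.AOR.HashC
import Pool.Agent.AOR.Card

set_option autoImplicit false

namespace Pool.Agent.AOR

open Pool.Agent.SPD (hitPt)

theorem one_le_of_flat {K : Type*} [Field K] {n w : ℕ} (a : Finset (Fin n) → K) (ha : a ≠ 0)
    (hw : Flat w a) : 1 ≤ w := by
  obtain ⟨A, hA⟩ := Function.ne_iff.1 ha
  have h1 := hw Finset.univ
  by_contra hlt
  have h0 : Module.finrank K (Submodule.span K (Set.range (row a Finset.univ))) = 0 := by omega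
  have h2 : Submodule.span K (Set.range (row a Finset.univ)) = ⊥ :=
    Submodule.finrank_eq_zero.1 h0
  have h3 : row a Finset.univ A = 0 := by
    rw [Submodule.span_eq_bot] at h2
    exact h2 _ ⟨A, rfl⟩
  apply hA
  have h4 := congrFun h3 ∅
  simpa [row] using h4

/-- The hitting set property. -/
theorem hit {K : Type*} [Field K] [CharZero K] {n w : ℕ} (a : Finset (Fin n) → K) (ha : a ≠ 0)
    (hw : Flat w a) : ∃ x ∈ points n w, mlEval a (fun i => ((x i : ℕ) : K)) ≠ 0 := by
  classical
  obtain ⟨T, hT, hne⟩ := conc a ha hw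
  obtain ⟨t, ht, htne⟩ := exists_t a T hne
  have hw1 : 1 ≤ w := one_le_of_flat a ha hw
  set k := Nat.log 2 w with hk
  have hTk : T.card ≤ k := by
    rw [hk]
    exact Nat.le_log_of_pow_le (by norm_num) hT
  set p : Fin n → K := fun i => ((hitPt (M1 n w) ((i : ℕ) + 1) t : ℕ) : K) with hp
  set a' := shift a p with ha'
  have hflat : Flat w a' := hw.shift p
  obtain ⟨h, hh, hinj⟩ := family_separates n k T hTk
  have hHne : Hpoly a' h (T.image h) ≠ 0 := Hpoly_ne_zero a' h T hinj htne
  have hEcard : (T.image h).card = T.card := Finset.card_image_of_injOn hinj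
  have hfin : Module.finrank K (SPD.derivSpace (Hpoly a' h (T.image h))) ≤ w ^ 2 := by
    refine (finrank_H a' hflat h (T.image h)).trans ?_
    rw [hEcard, sq]
    exact Nat.mul_le_mul_left _ hT
  obtain ⟨u, hu, hune⟩ := SPD.hit_main n T.card (w ^ 2) 1 (fun _ => Hpoly a' h (T.image h))
    (fun _ => hHne) (fun _ => hfin) (Hpoly a' h (T.image h)) (by simp)
    (by rw [← hEcard]; exact Hpoly_totalDegree a' h _)
  have hTn : T.card ≤ n := by
    simpa using T.card_le_univ
  obtain ⟨r, hr, v, hv, hne'⟩ := exists_rv a' h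
    (fun i => ((hitPt (n * (w ^ 2) ^ 2) ((i : ℕ) + 1) u : ℕ) : K)) (T.image h)
    (by rw [hEcard]; exact hTk) hune
  refine ⟨point n w k t u r v h, ?_, ?_⟩
  · unfold points
    rw [Finset.mem_image]
    refine ⟨(t, u, r, v, h), ?_, rfl⟩
    simp only [Finset.mem_product, Finset.mem_range]
    refine ⟨by omega, ?_, by rw [← hk]; omega, by omega, hh⟩
    have : T.card * (n * (w ^ 2) ^ 2) ≤ n * M2 n w := by
      unfold M2
      exact Nat.mul_le_mul_right _ hTn
    omega
  · have heq : (fun i => ((point n w k t u r v h i : ℕ) : K)) = fun i => p i +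
        ((hitPt (n * (w ^ 2) ^ 2) ((i : ℕ) + 1) u : ℕ) : K) *
          ((v : K) * ((hitPt (M3 k) ((h i : ℕ) + 1) r : ℕ) : K)) := by
      funext i
      unfold point M2
      push_cast
      rfl
    rw [heq, mlEval_shift a p]
    exact hne'

end Pool.Agent.AOR
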