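import Pool.Agent.AOR.Defs

set_option autoImplicit false

namespace Pool.Agent.AOR

/-- `shift` in terms of the parts of the sets in `T` and `Tᶜ`. -/
private theorem minCo_split {R : Type*} [CommRing R] {n : ℕ} (a : Finset (Fin n) → R)
    (p : Fin n → R) (T T' : Finset (Fin n)) (hT : T' ⊆ T) :
    shift a p T' = ∑ D ∈ (T \ T').powerset,
      (∑ B ∈ Tᶜ.powerset, a ((T' ∪ D) ∪ B) * ∏ i ∈ B, p i) * ∏ i ∈ D, p i := by
  classical
  unfold shift
  rw [← Finset.sum_filter]
  simp only [Finset.sum_mul]
  rw [← Finset.sum_product']
  symm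
  refine Finset.sum_bij' (fun x _ => (T' ∪ x.1) ∪ x.2)
    (fun A _ => ((A ∩ T) \ T', A ∩ Tᶜ)) ?_ ?_ ?_ ?_ ?_
  · intro x hx
    simp only [Finset.mem_filter, Finset.mem_univ, true_and]
    intro i hi
    simp [hi]
  · intro A hA
    simp only [Finset.mem_product, Finset.mem_powerset]
    constructor
    · intro i hi
      simp only [Finset.mem_sdiff, Finset.mem_inter] at hi ⊢
      exact ⟨hi.1.2, hi.2⟩
    · exact Finset.inter_subset_right
  · rintro ⟨D, B⟩ hx
    simp only [Finset.mem_product, Finset.mem_powerset] at hx
    obtain ⟨hD, hB⟩ := hx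
    have h1 : ∀ i, i ∈ D → i ∈ T ∧ i ∉ T' := fun i hi => by
      have := hD hi; simpa using this
    have h2 : ∀ i, i ∈ B → i ∉ T := fun i hi => by
      have := hB hi; simpa using this
    simp only [Prod.mk.injEq]
    constructor
    · ext i
      simp only [Finset.mem_sdiff, Finset.mem_inter, Finset.mem_union]
      constructor
      · rintro ⟨⟨(h | h) | h, h3⟩, h4⟩
        · exact absurd h h4
        · exact h
        · exact absurd h3 (h2 i h)
      · intro h
        exact ⟨⟨Or.inl (Or.inr h), (h1 i h).1⟩, (h1 i h).2⟩
    · ext i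
      simp only [Finset.mem_inter, Finset.mem_union, Finset.mem_compl]
      constructor
      · rintro ⟨(h | h) | h, h3⟩
        · exact absurd (hT h) h3
        · exact absurd (h1 i h).1 h3
        · exact h
      · intro h
        exact ⟨Or.inr h, h2 i h⟩
  · intro A hA
    simp only [Finset.mem_filter, Finset.mem_univ, true_and] at hA
    ext i
    simp only [Finset.mem_sdiff, Finset.mem_inter, Finset.mem_union, Finset.mem_compl]
    constructor
    · rintro ((h | h) | h)
      · exact hA h
      · exact h.1.1
      · exact h.1
    · intro h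
      by_cases h5 : i ∈ T'
      · exact Or.inl (Or.inl h5)
      · by_cases h6 : i ∈ T
        · exact Or.inl (Or.inr ⟨⟨h, h6⟩, h5⟩)
        · exact Or.inr ⟨h, h6⟩
  · rintro ⟨D, B⟩ hx
    simp only [Finset.mem_product, Finset.mem_powerset] at hx
    obtain ⟨hD, hB⟩ := hx
    have h1 : ∀ i, i ∈ D → i ∈ T ∧ i ∉ T' := fun i hi => by
      have := hD hi; simpa using this
    have h2 : ∀ i, i ∈ B → i ∉ T := fun i hi => by
      have := hB hi; simpa using this
    have hdis : Disjoint D B := by
      rw [Finset.disjoint_left]
      intro i hi hi'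
      exact h2 i hi' (h1 i hi).1
    have heq : ((T' ∪ D) ∪ B) \ T' = D ∪ B := by
      ext i
      simp only [Finset.mem_sdiff, Finset.mem_union]
      constructor
      · rintro ⟨(h | h) | h, h4⟩
        · exact absurd h h4
        · exact Or.inl h
        · exact Or.inr h
      · rintro (h | h)
        · exact ⟨Or.inl (Or.inr h), (h1 i h).2⟩
        · exact ⟨Or.inr h, fun h7 => h2 i h (hT h7)⟩
    simp only
    rw [heq, Finset.prod_union hdis]
    ring

/- Induction on the size of `T \ A`. -/
theorem min_coeff {R : Type*} [CommRing R] {n : ℕ} (a : Finset (Fin n) → R) (p : Fin n → R)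
    (T : Finset (Fin n)) (h : ∀ T', T' ⊂ T → shift a p T' = 0) (A : Finset (Fin n))
    (hA : A ⊆ T) :
    ∑ B ∈ Tᶜ.powerset, a (A ∪ B) * ∏ i ∈ B, p i = shift a p T * ∏ i ∈ T \ A, (-p i) := by
  classical
  have key : ∀ m : ℕ, ∀ A : Finset (Fin n), A ⊆ T → (T \ A).card = m →
      ∑ B ∈ Tᶜ.powerset, a (A ∪ B) * ∏ i ∈ B, p i = shift a p T * ∏ i ∈ T \ A, (-p i) := by
    intro m
    induction m using Nat.strong_induction_on with
    | _ m ih =>
      intro A hA hm
      by_cases hAT : A = T
      · subst hAT
        have h1 := minCo_split a p A A (Finset.Subset.refl _)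
        simp only [Finset.sdiff_self, Finset.powerset_empty, Finset.sum_singleton,
          Finset.union_empty, Finset.prod_empty, mul_one] at h1 ⊢
        exact h1.symm
      · have hss : A ⊂ T := Finset.ssubset_iff_subset_ne.mpr ⟨hA, hAT⟩
        have h0 := minCo_split a p T A hA
        rw [h A hss] at h0
        -- split off the empty set
        have hne : (T \ A).Nonempty := by
          rw [Finset.sdiff_nonempty]
          exact fun h8 => hAT (Finset.Subset.antisymm hA h8)
        have hmem : (∅ : Finset (Fin n)) ∈ (T \ A).powerset := by simp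
        rw [← Finset.add_sum_erase _ _ hmem] at h0
        have hrest : ∑ D ∈ (T \ A).powerset.erase ∅,
            (∑ B ∈ Tᶜ.powerset, a ((A ∪ D) ∪ B) * ∏ i ∈ B, p i) * ∏ i ∈ D, p i =
            ∑ D ∈ (T \ A).powerset.erase ∅,
              shift a p T * ((∏ i ∈ D, p i) * ∏ i ∈ (T \ A) \ D, (-p i)) := by
          refine Finset.sum_congr rfl fun D hD => ?_
          simp only [Finset.mem_erase, Finset.mem_powerset] at hD
          obtain ⟨hD0, hDs⟩ := hD
          have hsub : A ∪ D ⊆ T := Finset.union_subset hA (hDs.trans Finset.sdiff_subset)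
          have hlt : (T \ (A ∪ D)).card < m := by
            rw [← hm]
            apply Finset.card_lt_card
            rw [Finset.ssubset_iff_subset_ne]
            constructor
            · exact Finset.sdiff_subset_sdiff (Finset.Subset.refl _) Finset.subset_union_left
            · intro h9
              obtain ⟨i, hi⟩ := Finset.nonempty_iff_ne_empty.mpr hD0
              have h10 : i ∈ T \ A := hDs hi
              rw [← h9] at h10
              simp [hi] at h10
          rw [ih _ hlt (A ∪ D) hsub rfl]
          have h11 : T \ (A ∪ D) = (T \ A) \ D := by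
            ext i
            simp only [Finset.mem_sdiff, Finset.mem_union, not_or]
            tauto
          rw [h11]
          ring
        rw [hrest] at h0
        have hfull : ∑ D ∈ (T \ A).powerset,
            shift a p T * ((∏ i ∈ D, p i) * ∏ i ∈ (T \ A) \ D, (-p i)) = 0 := by
          rw [← Finset.mul_sum, ← Finset.prod_add]
          obtain ⟨i, hi⟩ := hne
          rw [Finset.prod_eq_zero hi (by ring), mul_zero]
        rw [← Finset.add_sum_erase _ _ hmem] at hfull
        simp only [Finset.union_empty, Finset.prod_empty, mul_one, Finset.sdiff_empty,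
          one_mul] at h0 hfull
        have h12 := h0.symm.trans hfull.symm
        exact add_right_cancel h12
  exact key _ A hA rfl

/- A set of minimal size with nonzero shift. -/
theorem exists_min {R : Type*} [CommRing R] {n : ℕ} (a : Finset (Fin n) → R) (p : Fin n → R)
    (ha : a ≠ 0) : ∃ T, shift a p T ≠ 0 ∧ ∀ T', T' ⊂ T → shift a p T' = 0 := by
  classical
  -- a set of maximal size with a nonzero coefficient
  have hne : ((Finset.univ : Finset (Finset (Fin n))).filter (fun A => a A ≠ 0)).Nonempty := by
    obtain ⟨A, hA⟩ := Function.ne_iff.mp ha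
    exact ⟨A, by simpa using hA⟩
  obtain ⟨A, hA, hmax⟩ := Finset.exists_max_image _ Finset.card hne
  simp only [Finset.mem_filter, Finset.mem_univ, true_and] at hA hmax
  have hsA : shift a p A = a A := by
    unfold shift
    rw [Finset.sum_eq_single A]
    · simp
    · intro B _ hBA
      split_ifs with hAB
      · have : A ⊂ B := Finset.ssubset_iff_subset_ne.mpr ⟨hAB, fun h => hBA h.symm⟩
        have hlt := Finset.card_lt_card this
        have h0 : a B = 0 := by
          by_contra h1
          have := hmax B h1
          omega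
        rw [h0, zero_mul]
      · rfl
    · intro h
      exact absurd (Finset.mem_univ _) h
  have hne2 : ((Finset.univ : Finset (Finset (Fin n))).filter
      (fun A => shift a p A ≠ 0)).Nonempty := ⟨A, by simp [hsA, hA]⟩
  obtain ⟨T, hT, hmin⟩ := Finset.exists_min_image _ Finset.card hne2
  simp only [Finset.mem_filter, Finset.mem_univ, true_and] at hT hmin
  refine ⟨T, hT, fun T' hT' => ?_⟩
  by_contra h1
  have h2 := hmin T' h1
  have h3 := Finset.card_lt_card hT'
  omega

end Pool.Agent.AOR
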