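import Pool.Agent.AOR.TMap
import Pool.Agent.AOR.Defs

set_option autoImplicit false

namespace Pool.Agent.AOR

variable {K : Type*} [Field K] {n : ℕ}

/- The multilinear polynomial of a slice of a tensor with labels `Fin (r + 1) → Bool`.
PLAN.  `row A S A'` is the image of `tRow b S Φ'`, `Φ' j = Fin.cons (decide (j ∈ A')) (ψ0 j)`, under
the linear map `R ↦ (B ↦ R (fun j => Fin.cons (decide (j ∈ B)) (ψ0 j)))`. -/
theorem flat_slice {r w : ℕ} {b : (Fin n → (Fin (r + 1) → Bool)) → K} (h : TFlat w b)
    (ψ0 : Fin n → (Fin r → Bool)) :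
    Flat w (fun A : Finset (Fin n) => b (fun j => Fin.cons (decide (j ∈ A)) (ψ0 j))) := by
  classical
  intro S
  let e : Finset (Fin n) → (Fin n → (Fin (r + 1) → Bool)) :=
    fun A j => Fin.cons (decide (j ∈ A)) (ψ0 j)
  let Λ : ((Fin n → (Fin (r + 1) → Bool)) → K) →ₗ[K] (Finset (Fin n) → K) := LinearMap.funLeft K K e
  have hle : Submodule.span K (Set.range (row
      (fun A : Finset (Fin n) => b (fun j => Fin.cons (decide (j ∈ A)) (ψ0 j))) S)) ≤
      (Submodule.span K (Set.range (tRow b S))).map Λ := by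
    refine Submodule.span_le.2 ?_
    rintro _ ⟨A, rfl⟩
    refine Submodule.mem_map.2 ⟨tRow b S (e A), Submodule.subset_span ⟨e A, rfl⟩, ?_⟩
    funext B
    rw [LinearMap.funLeft_apply]
    unfold tRow row
    congr 1
    funext j
    by_cases hj : j ∈ S
    · rw [if_pos hj]
      simp only [e]
      congr 1
      simp [hj]
    · rw [if_neg hj]
      simp only [e]
      congr 1
      simp [hj]
  exact (Submodule.finrank_mono hle).trans ((Submodule.finrank_map_le Λ _).trans (h S))

/-- The matrices of the contraction of the first bit with `(1, x_j)`. -/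
def bitL {r : ℕ} (x : Fin n → K) (j : Fin n) (c : Fin (r + 1) → Bool) (d : Fin r → Bool) : K :=
  if Fin.tail c = d then (if c 0 then x j else 1) else 0

/- PLAN.  The `Φ` with `Fin.tail (Φ j) = ψ0 j` for all `j` correspond to the sets
`A = {j | Φ j 0 = true}`. -/
theorem tMap_bitL {r : ℕ} (x : Fin n → K) (b : (Fin n → (Fin (r + 1) → Bool)) → K)
    (ψ0 : Fin n → (Fin r → Bool)) :
    tMap (bitL x) b ψ0 =
      mlEval (fun A : Finset (Fin n) => b (fun j => Fin.cons (decide (j ∈ A)) (ψ0 j))) x := by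
  classical
  unfold tMap mlEval
  symm
  refine Fintype.sum_of_injective
    (fun (A : Finset (Fin n)) (j : Fin n) => (Fin.cons (decide (j ∈ A)) (ψ0 j) : Fin (r + 1) → Bool))
    ?_ _ _ ?_ ?_
  · intro A A' hAA
    ext j
    have h1 := congrFun (congrFun hAA j) 0
    simp only [Fin.cons_zero] at h1
    exact decide_eq_decide.1 h1
  · intro Φ hΦ
    have h1 : ∃ j, Fin.tail (Φ j) ≠ ψ0 j := by
      by_contra hc
      push Not at hc
      refine hΦ ⟨Finset.univ.filter (fun j => Φ j 0 = true), ?_⟩
      funext j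
      simp only [Finset.mem_filter, Finset.mem_univ, true_and, Bool.decide_eq_true]
      rw [← hc j]
      exact Fin.cons_self_tail (Φ j)
    obtain ⟨j, hj⟩ := h1
    rw [Finset.prod_eq_zero (Finset.mem_univ j), mul_zero]
    unfold bitL
    rw [if_neg hj]
  · intro A
    simp only
    congr 1
    have h1 : ∀ j, bitL x j (Fin.cons (decide (j ∈ A)) (ψ0 j)) (ψ0 j) = if j ∈ A then x j else 1 := by
      intro j
      unfold bitL
      rw [Fin.tail_cons, if_pos rfl, Fin.cons_zero]
      simp only [decide_eq_true_eq]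
    simp only [h1]
    rw [Finset.prod_ite_mem, Finset.univ_inter]

/- PLAN.  `∑_d bitL x j c d * v d = (if c 0 then x j else 1) * v (Fin.tail c)`, and
`Fin.prod_univ_succ`. -/
theorem sum_bitL {r : ℕ} (x : Fin (r + 1) → Fin n → K) (j : Fin n) (c : Fin (r + 1) → Bool) :
    ∑ d, bitL (x 0) j c d * ∏ l : Fin r, (if d l then x l.succ j else 1) =
      ∏ l : Fin (r + 1), (if c l then x l j else 1) := by
  unfold bitL
  rw [Fin.prod_univ_succ, Fintype.sum_eq_single (Fin.tail c)]
  · rw [if_pos rfl]
    rfl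
  · intro d hd
    rw [if_neg (Ne.symm hd), zero_mul]

end Pool.Agent.AOR
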