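import Mathlib

/-! Tensors with flattenings of small rank. -/

set_option autoImplicit false

namespace Pool.Agent.AOR

variable {K : Type*} [Field K] {n : ℕ}

/-- The row with index `φ` of the flattening of the tensor `a` with respect to the set `S` of
factors. -/
def tRow {ι : Type*} (a : (Fin n → ι) → K) (S : Finset (Fin n)) (φ : Fin n → ι) :
    (Fin n → ι) → K :=
  fun ψ => a (fun i => if i ∈ S then φ i else ψ i)

/-- All flattenings of the tensor `a` have rank at most `w`. -/
def TFlat {ι : Type*} (w : ℕ) (a : (Fin n → ι) → K) : Prop :=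
  ∀ S : Finset (Fin n), Module.finrank K (Submodule.span K (Set.range (tRow a S))) ≤ w

/-- Apply the linear maps with matrices `L j` to the factors of the tensor `a`. -/
def tMap {ι κ : Type*} [Fintype ι] (L : Fin n → ι → κ → K) (a : (Fin n → ι) → K) :
    (Fin n → κ) → K :=
  fun ψ => ∑ φ : Fin n → ι, a φ * ∏ j, L j (φ j) (ψ j)

/-- The value of the tensor at the vectors `v j`. -/
def tEval {ι : Type*} [Fintype ι] (a : (Fin n → ι) → K) (v : Fin n → ι → K) : K :=
  ∑ φ : Fin n → ι, a φ * ∏ j, v j (φ j)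

private def mrg {ι : Type*} (S : Finset (Fin n)) (α : {j : Fin n // j ∈ S} → ι)
    (β : {j : Fin n // ¬ j ∈ S} → ι) : Fin n → ι :=
  fun i => if h : i ∈ S then α ⟨i, h⟩ else β ⟨i, h⟩

private theorem sum_mrg {ι : Type*} [Fintype ι] (S : Finset (Fin n)) (F : (Fin n → ι) → K) :
    ∑ φ, F φ = ∑ α : {j : Fin n // j ∈ S} → ι, ∑ β : {j : Fin n // ¬ j ∈ S} → ι, F (mrg S α β) := by
  rw [← Fintype.sum_prod_type']
  refine Fintype.sum_equiv (Equiv.piEquivPiSubtypeProd (fun j : Fin n => j ∈ S) (fun _ => ι)) _ _ fun φ => ?_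
  congr 1
  funext i
  unfold mrg
  by_cases h : i ∈ S
  · rw [dif_pos h]
    rfl
  · rw [dif_neg h]
    rfl

private theorem prod_spl (S : Finset (Fin n)) (f : Fin n → K) :
    ∏ j, f j = (∏ j : {j : Fin n // j ∈ S}, f j) * ∏ j : {j : Fin n // ¬ j ∈ S}, f j := by
  rw [← Finset.prod_mul_prod_compl S f, Finset.prod_subtype S (p := fun j => j ∈ S) (fun x => Iff.rfl) f,
    Finset.prod_subtype Sᶜ (p := fun j => ¬ j ∈ S) (fun x => Finset.mem_compl) f]

private noncomputable def lam {ι κ : Type*} [Fintype ι] (L : Fin n → ι → κ → K) (S : Finset (Fin n)) (φ0 : Fin n → ι) :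
    ((Fin n → ι) → K) →ₗ[K] ((Fin n → κ) → K) where
  toFun r ψ := ∑ β : {j : Fin n // ¬ j ∈ S} → ι, r (mrg S (fun j => φ0 j) β) *
    ∏ j : {j : Fin n // ¬ j ∈ S}, L j (β j) (ψ j)
  map_add' r r' := by
    funext ψ
    simp only [Pi.add_apply, add_mul, Finset.sum_add_distrib]
  map_smul' c r := by
    funext ψ
    simp only [Pi.smul_apply, smul_eq_mul, RingHom.id_apply, Finset.mul_sum, mul_assoc]

/- PLAN.  For `S` let `Λ` be the linear map `(Λ r) ψ = ∑ φ', r φ' * ∏_(j ∉ S) L j (φ' j) (ψ j)`
restricted to the `φ'` which are equal to a fixed label `φ0 j` (any) for `j ∈ S` (if `ι` is empty and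
`n > 0` everything is `0`).  Then `tRow (tMap L a) S ψ1 = ∑ φ, (∏_(j ∈ S) L j (φ j) (ψ1 j)) •
Λ (tRow a S φ)`, the sum over the `φ` which are `φ0` off `S` (split `φ` in its parts on `S` and off
`S`).  So the row space of `tMap L a` is contained in the image of the row space of `a`:
`Submodule.finrank_mono`, `Submodule.finrank_map_le`. -/
theorem TFlat.map {ι κ : Type*} [Fintype ι] [Finite κ] {w : ℕ} {a : (Fin n → ι) → K}
    (h : TFlat w a) (L : Fin n → ι → κ → K) : TFlat w (tMap L a) := by
  intro S
  rcases isEmpty_or_nonempty (Fin n → ι) with he | ⟨⟨φ0⟩⟩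
  · have h0 : ∀ ψ, tRow (tMap L a) S ψ = 0 := by
      intro ψ
      funext ψ'
      show ∑ φ : Fin n → ι, _ = 0
      exact Finset.sum_eq_zero fun φ _ => (he.false φ).elim
    have h1 : Submodule.span K (Set.range (tRow (tMap L a) S)) = ⊥ := by
      rw [Submodule.span_eq_bot]
      rintro _ ⟨ψ, rfl⟩
      exact h0 ψ
    rw [h1, finrank_bot]
    exact Nat.zero_le w
  · have hle : Submodule.span K (Set.range (tRow (tMap L a) S)) ≤
        (Submodule.span K (Set.range (tRow a S))).map (lam L S φ0) := by
      rw [Submodule.span_le]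
      rintro _ ⟨ψ1, rfl⟩
      have key : tRow (tMap L a) S ψ1 = ∑ α : {j : Fin n // j ∈ S} → ι,
          (∏ j : {j : Fin n // j ∈ S}, L j (α j) (ψ1 j)) •
            lam L S φ0 (tRow a S (mrg S α (fun j => φ0 j))) := by
        funext ψ
        rw [Finset.sum_apply]
        show ∑ φ : Fin n → ι, a φ * ∏ j, L j (φ j) (if j ∈ S then ψ1 j else ψ j) = _
        rw [sum_mrg S]
        refine Finset.sum_congr rfl fun α _ => ?_
        show _ = (∏ j : {j : Fin n // j ∈ S}, L j (α j) (ψ1 j)) *
          ∑ β : {j : Fin n // ¬ j ∈ S} → ι, tRow a S (mrg S α (fun j => φ0 j)) (mrg S (fun j => φ0 j) β) *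
            ∏ j : {j : Fin n // ¬ j ∈ S}, L j (β j) (ψ j)
        rw [Finset.mul_sum]
        refine Finset.sum_congr rfl fun β _ => ?_
        have h1 : tRow a S (mrg S α (fun j => φ0 j)) (mrg S (fun j => φ0 j) β) = a (mrg S α β) := by
          unfold tRow
          congr 1
          funext i
          by_cases hi : i ∈ S
          · rw [if_pos hi]
            unfold mrg
            rw [dif_pos hi, dif_pos hi]
          · rw [if_neg hi]
            unfold mrg
            rw [dif_neg hi, dif_neg hi]
        have h2 : ∏ j, L j (mrg S α β j) (if j ∈ S then ψ1 j else ψ j) =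
            (∏ j : {j : Fin n // j ∈ S}, L j (α j) (ψ1 j)) * ∏ j : {j : Fin n // ¬ j ∈ S}, L j (β j) (ψ j) := by
          rw [prod_spl S]
          have h3 : ∀ j : {j : Fin n // j ∈ S}, L j (mrg S α β j) (if (j : Fin n) ∈ S then ψ1 j else ψ j) =
              L j (α j) (ψ1 j) := by
            intro j
            have h4 : mrg S α β j = α j := by
              unfold mrg
              rw [dif_pos j.2]
            rw [h4, if_pos j.2]
          have h5 : ∀ j : {j : Fin n // ¬ j ∈ S}, L j (mrg S α β j) (if (j : Fin n) ∈ S then ψ1 j else ψ j) =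
              L j (β j) (ψ j) := by
            intro j
            have h4 : mrg S α β j = β j := by
              unfold mrg
              rw [dif_neg j.2]
            rw [h4, if_neg j.2]
          simp only [h3, h5]
        rw [h1, h2]
        ring
      rw [SetLike.mem_coe, key]
      refine Submodule.sum_mem _ fun α _ => Submodule.smul_mem _ _ ?_
      exact Submodule.mem_map_of_mem (Submodule.subset_span ⟨_, rfl⟩)
    exact (Submodule.finrank_mono hle).trans ((Submodule.finrank_map_le _ _).trans (h S))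

/- PLAN.  Expand and exchange the sums: `∏_j ∑_c = ∑_φ ∏_j` (`Finset.prod_univ_sum`,
`Fintype.piFinset_univ`). -/
theorem tEval_tMap {ι κ : Type*} [Fintype ι] [Fintype κ] (L : Fin n → ι → κ → K)
    (a : (Fin n → ι) → K) (v : Fin n → κ → K) :
    tEval (tMap L a) v = tEval a (fun j i => ∑ c, L j i c * v j c) := by
  classical
  unfold tEval tMap
  simp only [Finset.prod_univ_sum, Fintype.piFinset_univ, Finset.sum_mul, Finset.mul_sum]
  rw [Finset.sum_comm]
  refine Finset.sum_congr rfl fun φ _ => Finset.sum_congr rfl fun ψ _ => ?_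
  rw [Finset.prod_mul_distrib]
  ring

end Pool.Agent.AOR
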