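import Pool.Agent.AOR.Main
import Pool.Agent.AOR.TBase

set_option autoImplicit false

namespace Pool.Agent.AOR

variable {K : Type*} [Field K] [CharZero K] {n : ℕ}

theorem hit_bits {w : ℕ} : ∀ (r : ℕ) (b : (Fin n → (Fin r → Bool)) → K), b ≠ 0 → TFlat w b →
    ∃ x : Fin r → Fin n → ℕ, (∀ l, x l ∈ points n w) ∧
      tEval b (fun j c => ∏ l : Fin r, (if c l then ((x l j : ℕ) : K) else 1)) ≠ 0 := by
  intro r
  induction r with
  | zero =>
    intro b hb _
    refine ⟨fun l => l.elim0, fun l => l.elim0, ?_⟩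
    obtain ⟨Φ, hΦ⟩ := Function.ne_iff.1 hb
    unfold tEval
    rw [Fintype.sum_eq_single Φ (fun Φ' h => absurd (Subsingleton.elim Φ' Φ) h)]
    simpa using hΦ
  | succ r ih =>
    intro b hb hflat
    obtain ⟨Φ, hΦ⟩ := Function.ne_iff.1 hb
    set ψ0 : Fin n → (Fin r → Bool) := fun j => Fin.tail (Φ j) with hψ0
    set A0 : Finset (Fin n) → K := fun A => b (fun j => Fin.cons (decide (j ∈ A)) (ψ0 j))
      with hA0
    have hA0ne : A0 ≠ 0 := by
      intro h
      apply hΦ
      have h1 := congrFun h (Finset.univ.filter (fun j => Φ j 0 = true))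
      have h2 : (fun j => (Fin.cons (decide (j ∈ Finset.univ.filter (fun j => Φ j 0 = true)))
          (ψ0 j) : Fin (r + 1) → Bool)) = Φ := by
        funext j
        rw [hψ0]
        simp only [Finset.mem_filter, Finset.mem_univ, true_and, Bool.decide_eq_true]
        exact Fin.cons_self_tail (Φ j)
      rw [hA0] at h1
      simp only at h1
      rw [h2] at h1
      exact h1
    obtain ⟨x0, hx0, hne⟩ := hit A0 hA0ne (flat_slice hflat ψ0)
    have hb' : tMap (bitL (fun j => ((x0 j : ℕ) : K))) b ≠ 0 := by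
      intro h
      apply hne
      have := congrFun h ψ0
      rw [tMap_bitL] at this
      exact this
    obtain ⟨x, hx, hxne⟩ := ih _ hb' (hflat.map _)
    refine ⟨Fin.cons x0 x, ?_, ?_⟩
    · intro l
      refine Fin.cases ?_ (fun l => ?_) l
      · exact hx0
      · exact hx l
    · rw [tEval_tMap] at hxne
      have : (fun (j : Fin n) (c : Fin (r + 1) → Bool) =>
          ∑ d, bitL (fun j => ((x0 j : ℕ) : K)) j c d *
            ∏ l : Fin r, (if d l then ((x l j : ℕ) : K) else 1)) =
          fun j c => ∏ l : Fin (r + 1),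
            (if c l then (((Fin.cons x0 x : Fin (r + 1) → Fin n → ℕ) l j : ℕ) : K) else 1) := by
        funext j c
        have := sum_bitL (K := K)
          (fun l j => (((Fin.cons x0 x : Fin (r + 1) → Fin n → ℕ) l j : ℕ) : K)) j c
        simpa using this
      rw [this] at hxne
      exact hxne

/-- Tensors with `n` factors of dimension `D`. -/
theorem hit_tensor {w D : ℕ} (r : ℕ) (hD : D ≤ 2 ^ r) (a : (Fin n → Fin D) → K) (ha : a ≠ 0)
    (hw : TFlat w a) :
    ∃ x : Fin r → Fin n → ℕ, (∀ l, x l ∈ points n w) ∧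
      tEval a (fun j c => ∏ l : Fin r, (if (c : ℕ).testBit l then ((x l j : ℕ) : K) else 1))
        ≠ 0 := by
  set L : Fin n → Fin D → (Fin r → Bool) → K :=
    fun _ c d => if (fun l : Fin r => (c : ℕ).testBit l) = d then 1 else 0 with hL
  have key : ∀ (v : (Fin r → Bool) → K) (j : Fin n) (c : Fin D),
      ∑ d, L j c d * v d = v (fun l : Fin r => (c : ℕ).testBit l) := by
    intro v j c
    rw [hL]
    simp
  have hne : tMap L a ≠ 0 := by
    obtain ⟨φ, hφ⟩ := Function.ne_iff.1 ha
    intro h
    apply hφ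
    have h1 := congrFun h (fun j => fun l : Fin r => (φ j : ℕ).testBit l)
    unfold tMap at h1
    rw [Fintype.sum_eq_single φ] at h1
    · simpa [hL] using h1
    · intro φ' hφ'
      obtain ⟨j, hj⟩ := Function.ne_iff.1 hφ'
      rw [Finset.prod_eq_zero (Finset.mem_univ j), mul_zero]
      rw [hL]
      simp only
      rw [if_neg]
      intro hbits
      apply hj
      apply Fin.ext
      apply Nat.eq_of_testBit_eq
      intro i
      by_cases hi : i < r
      · exact congrFun hbits ⟨i, hi⟩
      · have hpow : 2 ^ r ≤ 2 ^ i := Nat.pow_le_pow_right (by norm_num) (by omega)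
        rw [Nat.testBit_lt_two_pow (lt_of_lt_of_le (φ' j).2 (hD.trans hpow)),
          Nat.testBit_lt_two_pow (lt_of_lt_of_le (φ j).2 (hD.trans hpow))]
  obtain ⟨x, hx, hxne⟩ := hit_bits r (tMap L a) hne (hw.map L)
  refine ⟨x, hx, ?_⟩
  rw [tEval_tMap] at hxne
  have : (fun (j : Fin n) (c : Fin D) => ∑ d, L j c d *
      (fun (j : Fin n) (c : Fin r → Bool) =>
        ∏ l : Fin r, (if c l then ((x l j : ℕ) : K) else 1)) j d) =
      fun (j : Fin n) (c : Fin D) =>
        ∏ l : Fin r, (if (c : ℕ).testBit l then ((x l j : ℕ) : K) else 1) := by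
    funext j c
    exact key (fun d => ∏ l : Fin r, (if d l then ((x l j : ℕ) : K) else 1)) j c
  rw [this] at hxne
  exact hxne

end Pool.Agent.AOR
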